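import Pool.Agent.Q22.PL.Unit

/-!
# Characters with values in an extension of `ℚ_p`, and transfer from the complex numbers
-/

set_option autoImplicit false
set_option linter.unusedSectionVars false

namespace Pool.Agent.Q22.PL

open Finset Filter Topology

variable {p : ℕ} [hp : Fact p.Prime] {E : Type*} [NormedField E] [IsUltrametricDist E] [NormedAlgebra ℚ_[p] E]
  [CharZero E]

lemma char_le {F : ℕ} [NeZero F] (ψ : MulChar (ZMod F) E) (a : ZMod F) : ‖ψ a‖ ≤ 1 := by
  by_cases h : IsUnit a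
  · obtain ⟨u, rfl⟩ := h
    have h1 : ψ (u : ZMod F) ^ Fintype.card (ZMod F)ˣ = 1 := by
      rw [← map_pow, ← Units.val_pow_eq_pow_val, pow_card_eq_one, Units.val_one, map_one]
    have h2 : ‖ψ (u : ZMod F)‖ ^ Fintype.card (ZMod F)ˣ = 1 := by rw [← norm_pow, h1, norm_one]
    exact ((pow_eq_one_iff_of_nonneg (norm_nonneg _) Fintype.card_ne_zero).1 h2).le
  · rw [MulChar.map_nonunit ψ h, norm_zero]
    exact zero_le_one

lemma data {F : ℕ} (hF : 0 < F) (hpF : ¬ p ∣ F) (ψ : MulChar (ZMod F) E) (hψ : ψ ≠ 1) :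
    Data p F (fun n => ψ (n : ZMod F)) := by
  have : NeZero F := ⟨hF.ne'⟩
  refine ⟨hF, hpF, fun n => ?_, fun n => char_le ψ _, fun N a => ?_⟩
  · rw [Nat.cast_add, ZMod.natCast_self, add_zero]
  · have hsum : ∑ x : ZMod F, ψ x = 0 := MulChar.sum_eq_zero_of_ne_one hψ
    have hu : IsUnit ((p ^ N : ℕ) : ZMod F) := by
      rw [ZMod.isUnit_iff_coprime]
      exact Nat.Coprime.pow_left N ((hp.out.coprime_iff_not_dvd).2 hpF)
    rw [← hsum]
    refine Finset.sum_bij (fun j _ => ((a + p ^ N * j : ℕ) : ZMod F)) (fun _ _ => mem_univ _) ?_ ?_ (fun _ _ => rfl)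
    · intro j hj k hk hjk
      push_cast at hjk
      have h1 := add_left_cancel hjk
      rw [← Nat.cast_pow] at h1
      have h2 := hu.mul_left_cancel h1
      have h3 := (ZMod.natCast_eq_natCast_iff' _ _ _).1 h2
      rwa [Nat.mod_eq_of_lt (mem_range.1 hj), Nat.mod_eq_of_lt (mem_range.1 hk)] at h3
    · intro x _
      obtain ⟨u, hu'⟩ := hu
      refine ⟨((↑u⁻¹ : ZMod F) * (x - a)).val, mem_range.2 (ZMod.val_lt _), ?_⟩
      push_cast
      rw [ZMod.natCast_zmod_val, ← Nat.cast_pow, ← hu', ← mul_assoc, Units.mul_inv, one_mul]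
      ring

/-- algebraic integers have norm at most one -/
lemma norm_integral {x : E} (h : IsIntegral ℤ x) : ‖x‖ ≤ 1 := by
  by_contra hx
  push Not at hx
  obtain ⟨P, hP, hPx⟩ := h
  have h1 : x ^ P.natDegree = - ∑ i ∈ range P.natDegree, ((P.coeff i : ℤ) : E) * x ^ i := by
    rw [Polynomial.eval₂_eq_sum_range, Finset.sum_range_succ] at hPx
    have h2 : P.coeff P.natDegree = 1 := hP
    rw [h2] at hPx
    simp only [algebraMap_int_eq, eq_intCast, Int.cast_one, one_mul] at hPx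
    linear_combination hPx
  rcases Nat.eq_zero_or_pos P.natDegree with h0 | h0
  · rw [h0, pow_zero, Finset.sum_range_zero, neg_zero] at h1
    exact one_ne_zero h1
  · have h2 : ‖x ^ P.natDegree‖ ≤ ‖x‖ ^ (P.natDegree - 1) := by
      rw [h1, norm_neg]
      refine sum_le _ _ (by positivity) fun i hi => ?_
      have hi' := mem_range.1 hi
      rw [norm_mul, norm_pow]
      calc _ ≤ 1 * ‖x‖ ^ (P.natDegree - 1) :=
            mul_le_mul (int_le _) (pow_le_pow_right₀ hx.le (by omega)) (by positivity) zero_le_one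
        _ = _ := one_mul _
    rw [norm_pow] at h2
    have h3 : ‖x‖ ^ (P.natDegree - 1) < ‖x‖ ^ P.natDegree := pow_lt_pow_right₀ hx (by omega)
    exact absurd h2 (not_le.2 h3)

lemma map_expr {K L : Type*} [Field K] [CharZero K] [Field L] [CharZero L] (φ : K →+* L) (χ : ℕ → K) (q : ℕ → ℚ)
    (F m : ℕ) : φ ((1 - χ p * (p : K) ^ (m - 1)) * ((F : K) ^ (m - 1) * ∑ a ∈ range F, χ a * (q a : K)) / m) =
      (1 - φ (χ p) * (p : L) ^ (m - 1)) * ((F : L) ^ (m - 1) * ∑ a ∈ range F, φ (χ a) * (q a : L)) / m := by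
  simp only [map_div₀, map_mul, map_sub, map_one, map_pow, map_natCast, map_sum, map_ratCast]

/-- **Transfer.** For every character with values in `E` there is a complex character with the same conductor, such
that units at `p` formed with the latter become units of `E`. -/
theorem transfer {F : ℕ} (hF : 0 < F) (ψ : MulChar (ZMod F) E) :
    ∃ ψ' : MulChar (ZMod F) ℂ, (ψ' (-1) = 1 ↔ ψ (-1) = 1) ∧ (ψ' (-1) = -1 ↔ ψ (-1) = -1) ∧
      (∀ x, ψ' x = 1 ↔ ψ x = 1) ∧
      ∀ (m : ℕ) (c : ℤ), ¬ (p : ℤ) ∣ c →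
        (1 - ψ' (p : ZMod F) * (p : ℂ) ^ (m - 1)) * ((F : ℂ) ^ (m - 1) *
          ∑ a ∈ range F, ψ' (a : ZMod F) * (((Polynomial.bernoulli m).eval ((a : ℚ) / F) : ℚ) : ℂ)) / m ≠ 0 →
        IsIntegral ℤ ((c : ℂ) * ((1 - ψ' (p : ZMod F) * (p : ℂ) ^ (m - 1)) * ((F : ℂ) ^ (m - 1) *
          ∑ a ∈ range F, ψ' (a : ZMod F) * (((Polynomial.bernoulli m).eval ((a : ℚ) / F) : ℚ) : ℂ)) / m)) →
        IsIntegral ℤ ((c : ℂ) * ((1 - ψ' (p : ZMod F) * (p : ℂ) ^ (m - 1)) * ((F : ℂ) ^ (m - 1) *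
          ∑ a ∈ range F, ψ' (a : ZMod F) * (((Polynomial.bernoulli m).eval ((a : ℚ) / F) : ℚ) : ℂ)) / m)⁻¹) →
        ‖(1 - ψ (p : ZMod F) * (p : E) ^ (m - 1)) * ((F : E) ^ (m - 1) * BB F m (fun n => ψ (n : ZMod F))) / m‖ = 1 := by
  classical
  have : NeZero F := ⟨hF.ne'⟩
  let K := algebraicClosure ℚ E
  have hmem : ∀ x, ψ x ∈ K := by
    intro x
    rw [mem_algebraicClosure_iff]
    by_cases h : IsUnit x
    · obtain ⟨u, rfl⟩ := h
      have h1 : ψ (u : ZMod F) ^ Fintype.card (ZMod F)ˣ = 1 := by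
        rw [← map_pow, ← Units.val_pow_eq_pow_val, pow_card_eq_one, Units.val_one, map_one]
      have h2 : IsIntegral ℚ (ψ (u : ZMod F)) := by
        refine IsIntegral.of_pow (n := Fintype.card (ZMod F)ˣ) Fintype.card_pos ?_
        rw [h1]
        exact isIntegral_one
      exact h2.isAlgebraic
    · rw [MulChar.map_nonunit ψ h]
      exact isAlgebraic_zero
  let ψK : MulChar (ZMod F) K :=
    { toFun := fun x => ⟨ψ x, hmem x⟩
      map_one' := Subtype.ext (map_one ψ)
      map_mul' := fun x y => Subtype.ext (map_mul ψ x y)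
      map_nonunit' := fun x hx => Subtype.ext (MulChar.map_nonunit ψ hx) }
  have hKalg : Algebra.IsAlgebraic ℚ K := algebraicClosure.isAlgebraic ℚ E
  let σ : K →ₐ[ℚ] ℂ := IsAlgClosed.lift
  have hσ : Function.Injective σ := σ.injective
  have hval : ∀ x, ((ψK x : K) : E) = ψ x := fun x => rfl
  have hone : ∀ x, σ (ψK x) = 1 ↔ ψ x = 1 := by
    intro x
    rw [← map_one σ, hσ.eq_iff]
    constructor
    · intro h
      rw [← hval, h]
      rfl
    · intro h
      exact Subtype.ext (by rw [hval, h]; rfl)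
  refine ⟨ψK.ringHomComp σ.toRingHom, hone (-1), ?_, hone, ?_⟩
  · show σ (ψK (-1)) = -1 ↔ _
    have h1 : (-1 : ℂ) = σ (-1) := by rw [map_neg, map_one]
    rw [h1, hσ.eq_iff]
    constructor
    · intro h
      rw [← hval, h]
      rfl
    · intro h
      exact Subtype.ext (by rw [hval, h]; rfl)
  · intro m c hc h0 h1 h2
    set zK : K := (1 - ψK (p : ZMod F) * (p : K) ^ (m - 1)) * ((F : K) ^ (m - 1) *
      ∑ a ∈ range F, ψK (a : ZMod F) * (((Polynomial.bernoulli m).eval ((a : ℚ) / F) : ℚ) : K)) / m with hzK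
    have hz1 : σ zK = (1 - (ψK.ringHomComp σ.toRingHom) (p : ZMod F) * (p : ℂ) ^ (m - 1)) * ((F : ℂ) ^ (m - 1) *
          ∑ a ∈ range F, (ψK.ringHomComp σ.toRingHom) (a : ZMod F) *
            (((Polynomial.bernoulli m).eval ((a : ℚ) / F) : ℚ) : ℂ)) / m := by
      exact map_expr σ.toRingHom (fun n => ψK (n : ZMod F)) (fun a => (Polynomial.bernoulli m).eval ((a : ℚ) / F)) F m
    have hz2 : ((zK : K) : E) = (1 - ψ (p : ZMod F) * (p : E) ^ (m - 1)) *
        ((F : E) ^ (m - 1) * BB F m (fun n => ψ (n : ZMod F))) / m := by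
      exact map_expr (algebraMap K E) (fun n => ψK (n : ZMod F))
        (fun a => (Polynomial.bernoulli m).eval ((a : ℚ) / F)) F m
    rw [← hz1] at h0 h1 h2
    rw [← hz2]
    have hzK0 : zK ≠ 0 := fun h => h0 (by rw [h, map_zero])
    have i1 : IsIntegral ℤ ((c : K) * zK) := by
      have : (c : ℂ) * σ zK = σ.toRingHom.toIntAlgHom ((c : K) * zK) := by
        show _ = σ ((c : K) * zK)
        rw [map_mul, map_intCast]
      rw [this] at h1
      exact (isIntegral_algHom_iff σ.toRingHom.toIntAlgHom hσ).1 h1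
    have i2 : IsIntegral ℤ ((c : K) * zK⁻¹) := by
      have : (c : ℂ) * (σ zK)⁻¹ = σ.toRingHom.toIntAlgHom ((c : K) * zK⁻¹) := by
        show _ = σ ((c : K) * zK⁻¹)
        rw [map_mul, map_intCast, map_inv₀]
      rw [this] at h2
      exact (isIntegral_algHom_iff σ.toRingHom.toIntAlgHom hσ).1 h2
    have j1 : ‖((c : E) * ((zK : K) : E))‖ ≤ 1 := by
      have := i1.map (algebraMap K E).toIntAlgHom
      have h3 : (algebraMap K E).toIntAlgHom ((c : K) * zK) = (c : E) * ((zK : K) : E) := by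
        show algebraMap K E ((c : K) * zK) = _
        rw [map_mul, map_intCast]
        rfl
      rw [h3] at this
      exact norm_integral this
    have j2 : ‖((c : E) * ((zK : K) : E)⁻¹)‖ ≤ 1 := by
      have := i2.map (algebraMap K E).toIntAlgHom
      have h3 : (algebraMap K E).toIntAlgHom ((c : K) * zK⁻¹) = (c : E) * ((zK : K) : E)⁻¹ := by
        show algebraMap K E ((c : K) * zK⁻¹) = _
        rw [map_mul, map_intCast, map_inv₀]
        rfl
      rw [h3] at this
      exact norm_integral this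
    have hc1 : ‖(c : E)‖ = 1 := by
      rw [← map_intCast (algebraMap ℚ_[p] E) c, norm_algebraMap']
      exact le_antisymm (Padic.norm_int_le_one c) (not_lt.1 fun h => hc (Padic.norm_intCast_lt_one_iff.1 h))
    rw [norm_mul, hc1, one_mul] at j1 j2
    rw [norm_inv] at j2
    have hne : ‖((zK : K) : E)‖ ≠ 0 := by
      rw [norm_ne_zero_iff]
      intro h
      exact hzK0 (Subtype.ext h)
    have hpos : 0 < ‖((zK : K) : E)‖ := lt_of_le_of_ne (norm_nonneg _) (Ne.symm hne)
    have := (inv_le_one₀ hpos).1 j2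
    exact le_antisymm j1 this

end Pool.Agent.Q22.PL
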