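import Pool.Agent.Q22.PL.Lim
import Pool.Agent.Results.MP_c2a07f_nt.ManyPrimesPowersOfThree
import Pool.Agent.Results.MP_c2a07f_nt.FiveAndPowersOfThree

/-!
# From complex units to `p`-adic `L`-values
-/

set_option autoImplicit false
set_option linter.unusedSectionVars false

namespace Pool.Agent.Q22.PL

open Finset Filter Topology
open Pool.Agent.Results.MP_c2a07f_nt.ManyPrimesPowersOfThree (lValue lValue_eq genBernoulli IsUnitAt)

lemma cond_eq {R S : Type*} [CommMonoidWithZero R] [CommMonoidWithZero S] {n : ℕ} [NeZero n] (χ : DirichletCharacter R n)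
    (χ' : DirichletCharacter S n) (h : ∀ x, χ' x = 1 ↔ χ x = 1) : χ'.conductor = χ.conductor := by
  have h1 : χ'.conductorSet = χ.conductorSet := by
    ext d
    rw [DirichletCharacter.mem_conductorSet_iff, DirichletCharacter.mem_conductorSet_iff]
    have key : ∀ hd : d ∣ n, (χ'.FactorsThrough d ↔ χ.FactorsThrough d) := by
      intro hd
      rw [DirichletCharacter.factorsThrough_iff_ker_unitsMap hd, DirichletCharacter.factorsThrough_iff_ker_unitsMap hd]
      constructor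
      · intro h2 U hU
        have h3 := h2 hU
        rw [MonoidHom.mem_ker] at h3 ⊢
        have h4 := congrArg Units.val h3
        rw [MulChar.coe_toUnitHom, Units.val_one] at h4
        apply Units.ext
        rw [MulChar.coe_toUnitHom, Units.val_one]
        exact (h _).1 h4
      · intro h2 U hU
        have h3 := h2 hU
        rw [MonoidHom.mem_ker] at h3 ⊢
        have h4 := congrArg Units.val h3
        rw [MulChar.coe_toUnitHom, Units.val_one] at h4
        apply Units.ext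
        rw [MulChar.coe_toUnitHom, Units.val_one]
        exact (h _).2 h4
    constructor
    · intro h2
      exact (key h2.dvd).1 h2
    · intro h2
      exact (key h2.dvd).2 h2
  rw [DirichletCharacter.conductor, DirichletCharacter.conductor, h1]

variable {p : ℕ} [hp : Fact p.Prime] {E : Type*} [NormedField E] [IsUltrametricDist E] [NormedAlgebra ℚ_[p] E]
  [CharZero E]

lemma not_dvd_of_coprime {c : ℤ} (h : IsCoprime (p : ℤ) c) : ¬ (p : ℤ) ∣ c := by
  intro hd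
  have h1 := h.isUnit_of_dvd' dvd_rfl hd
  rw [Int.isUnit_iff] at h1
  have := hp.out.two_le
  omega

/-- the exponent `m` of the class of `1 - r` -/
lemma exists_m (hp3 : 3 ≤ p) (r : ℕ) : ∃ m, 1 ≤ m ∧ m + 1 ≤ p ∧ p - 1 ∣ r - 1 + m := by
  refine ⟨(p - 1) - (r - 1) % (p - 1), ?_, ?_, ?_⟩
  · have := Nat.mod_lt (r - 1) (show 0 < p - 1 by omega)
    omega
  · omega
  · have h1 := Nat.mod_add_div (r - 1) (p - 1)
    have h2 := Nat.mod_lt (r - 1) (show 0 < p - 1 by omega)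
    refine ⟨(r - 1) / (p - 1) + 1, ?_⟩
    rw [mul_add, mul_one]
    omega

lemma parity (hp2 : p ≠ 2) {r m : ℕ} (hrm : p - 1 ∣ r - 1 + m) {F : ℕ} (ψ : MulChar (ZMod F) E)
    (ψ' : DirichletCharacter ℂ F) (h1 : ψ' (-1) = 1 ↔ ψ (-1) = 1) (h2 : ψ' (-1) = -1 ↔ ψ (-1) = -1)
    (hpar : ψ (-1) = (-1) ^ (r - 1)) : ψ' (-1) = (-1) ^ m := by
  have hodd := hp.out.odd_of_ne_two hp2
  have h3 : Even (r - 1 + m) := by
    have h4 : Even (p - 1) := by
      obtain ⟨t, ht⟩ := hodd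
      exact ⟨t, by omega⟩
    exact h4.trans_dvd hrm
  rcases Nat.even_or_odd m with hm | hm
  · have h5 : Even (r - 1) := by
      rw [Nat.even_add] at h3
      exact h3.2 hm
    rw [hm.neg_one_pow]
    rw [h5.neg_one_pow] at hpar
    exact h1.2 hpar
  · have h5 : Odd (r - 1) := by
      rw [Nat.even_add] at h3
      rw [← Nat.not_even_iff_odd] at hm ⊢
      exact fun h => hm (h3.1 h)
    rw [hm.neg_one_pow]
    rw [h5.neg_one_pow] at hpar
    exact h2.2 hpar

/-- the trivial character -/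
lemma bern_unit {m : ℕ} (hm : 2 ≤ m) (hmp : m + 1 ≤ p)
    (P : ∀ ψ' : DirichletCharacter ℂ (3 ^ 0), (∀ x, ψ' x = 1) → IsUnitAt p (lValue p m ψ')) :
    ¬ (p : ℤ) ∣ (_root_.bernoulli m).num := by
  obtain ⟨ψ', -, -, h3, h4⟩ := transfer (p := p) (E := ℚ_[p]) (F := 3 ^ 0) (by norm_num) 1
  have h1 : ∀ x, ψ' x = 1 := fun x => by
    have : x = 1 := Subsingleton.elim (α := ZMod 1) x 1
    rw [this, map_one]
  obtain ⟨h5, c, hc, h6, h7⟩ := P ψ' h1
  have e : lValue p m ψ' = (1 - ψ' (p : ZMod (3 ^ 0)) * (p : ℂ) ^ (m - 1)) * (((3 ^ 0 : ℕ) : ℂ) ^ (m - 1) *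
          ∑ a ∈ range (3 ^ 0), ψ' (a : ZMod (3 ^ 0)) *
            (((Polynomial.bernoulli m).eval ((a : ℚ) / (3 ^ 0 : ℕ)) : ℚ) : ℂ)) / m := by
    unfold lValue genBernoulli
    simp only [h1, pow_zero, Icc_self, sum_singleton, Nat.cast_one, div_one, one_mul, one_pow, range_one, Nat.cast_zero]
    rw [Polynomial.bernoulli_eval_one, Polynomial.bernoulli_eval_zero, ← bernoulli_eq_bernoulli'_of_ne_one (by omega)]
  rw [e] at h5 h6 h7
  have h8 := h4 m c (not_dvd_of_coprime hc) h5 h6 h7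
  have hone : ∀ x : ZMod (3 ^ 0), (1 : MulChar (ZMod (3 ^ 0)) ℚ_[p]) x = 1 := fun x => by
    have : x = 1 := Subsingleton.elim (α := ZMod 1) x 1
    rw [this, map_one]
  unfold BB at h8
  simp only [hone, pow_zero, Nat.cast_one, div_one, one_mul, one_pow, range_one, sum_singleton, Nat.cast_zero] at h8
  rw [Polynomial.bernoulli_eval_zero] at h8
  intro hd
  have hp1 : (1 : ℝ) < p := by exact_mod_cast hp.out.one_lt
  have hpi : (p : ℝ)⁻¹ < 1 := inv_lt_one_of_one_lt₀ hp1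
  have h9 : ‖(1 - (p : ℚ_[p]) ^ (m - 1))‖ ≤ 1 := by
    have : (1 - (p : ℚ_[p]) ^ (m - 1)) = ((1 - (p : ℤ) ^ (m - 1) : ℤ) : ℚ_[p]) := by push_cast; ring
    rw [this]
    exact int_le _
  have hmn : ‖(m : ℚ_[p])‖ = 1 := norm_nat_unit p (Nat.not_dvd_of_pos_of_lt (by omega) (by omega))
  have hden : ‖(((_root_.bernoulli m).den : ℕ) : ℚ_[p])‖ = 1 := by
    refine norm_nat_unit p fun h => ?_
    have h10 := (_root_.bernoulli m).reduced
    have h11 : p ∣ (_root_.bernoulli m).num.natAbs := Int.natCast_dvd.1 hd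
    have h12 := Nat.dvd_gcd h11 h
    rw [h10] at h12
    exact hp.out.one_lt.ne' (Nat.dvd_one.1 h12)
  have hnum : ‖((_root_.bernoulli m).num : ℚ_[p])‖ ≤ (p : ℝ)⁻¹ := by
    have := norm_int_dvd (E := ℚ_[p]) p (N := 1) (z := (_root_.bernoulli m).num) (by rwa [pow_one])
    rwa [pow_one] at this
  rw [Rat.cast_def, norm_div, norm_mul, norm_div, hden, hmn, div_one, div_one] at h8
  have h13 : ‖(1 - (p : ℚ_[p]) ^ (m - 1))‖ * ‖((_root_.bernoulli m).num : ℚ_[p])‖ ≤ 1 * (p : ℝ)⁻¹ :=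
    mul_le_mul h9 hnum (norm_nonneg _) zero_le_one
  rw [h8] at h13
  linarith

/-- **Every prime, large conductors.** -/
theorem large [CompleteSpace E] (h5 : 5 ≤ p) {ℓ : ℕ} (hℓ : ℓ = 2 ∨ ℓ = 3) {N₁ g n : ℕ}
    (hN₁ : N₁.Coprime ℓ) (hpN : ¬ p ∣ N₁) (hg : Even g) (hφ : N₁.totient ∣ p ^ g - 1)
    (hn : ℓ ^ n ∣ p ^ g - 1) (hn' : ¬ ℓ ^ (n + 1) ∣ p ^ g - 1) {K r : ℕ}
    (hsize : (p - 1) * N₁ * ℓ ^ (2 * n) ≤ ℓ ^ K) (hr : 2 ≤ r) (ψ : DirichletCharacter E (N₁ * ℓ ^ K))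
    (hc : ℓ ^ K ∣ ψ.conductor) (hpar : ψ (-1) = (-1) ^ (r - 1)) :
    ∃ z : E, ‖z‖ = 1 ∧ Tendsto (fun N => lApp p ψ r N) atTop (𝓝 z) := by
  have hN0 : N₁ ≠ 0 := by
    rintro rfl
    exact hpN (dvd_zero _)
  have hℓp : ℓ.Prime := by rcases hℓ with rfl | rfl <;> norm_num
  have hF : 0 < N₁ * ℓ ^ K := Nat.mul_pos (Nat.pos_of_ne_zero hN0) (Nat.pow_pos hℓp.pos)
  have : NeZero (N₁ * ℓ ^ K) := ⟨hF.ne'⟩
  have hK : 1 < ℓ ^ K := by
    have h1 : 1 ≤ N₁ * ℓ ^ (2 * n) := Nat.mul_pos (Nat.pos_of_ne_zero hN0) (Nat.pow_pos hℓp.pos)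
    have h2 : 4 * 1 ≤ (p - 1) * (N₁ * ℓ ^ (2 * n)) := Nat.mul_le_mul (by omega) h1
    rw [← mul_assoc] at h2
    omega
  have hF1 : N₁ * ℓ ^ K ≠ 1 := by
    intro h
    have := Nat.eq_one_of_mul_eq_one_left h
    omega
  have hpF : ¬ p ∣ N₁ * ℓ ^ K := by
    intro h
    rcases hp.out.dvd_mul.1 h with h1 | h1
    · exact hpN h1
    · have h2 := (Nat.prime_dvd_prime_iff_eq hp.out hℓp).1 (hp.out.dvd_of_dvd_pow h1)
      omega
  have hψ : ψ ≠ 1 := by
    intro h
    rw [h, DirichletCharacter.conductor_one] at hc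
    have := Nat.dvd_one.1 hc
    omega
  obtain ⟨m, hm1, hmp, hrm⟩ := exists_m (p := p) (by omega) r
  obtain ⟨ψ', g1, g2, g3, g4⟩ := transfer (p := p) hF ψ
  have hpar' := parity (by omega) hrm ψ ψ' g1 g2 hpar
  have hcond : DirichletCharacter.conductor ψ' = ψ.conductor := cond_eq ψ ψ' g3
  obtain ⟨q5, c, hcc, q6, q7⟩ := Pool.Agent.Results.MP_c2a07f_nt.FiveAndPowersOfThree.part_one hp.out h5 hℓ hN₁ hpN hg hφ hn hn'
    hm1 (by omega : m ≤ p - 1) ((Nat.mul_le_mul_right _ (Nat.mul_le_mul_right _ (by omega))).trans hsize) ψ'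
    (by rw [hcond]; exact hc) hpar'
  rw [Pool.Agent.Results.MP_c2a07f_nt.FiveAndPowersOfThree.lValue_eq hF1] at q5 q6 q7
  exact limit hF hpF ψ hψ hr hm1 hmp hrm (g4 m c (not_dvd_of_coprime hcc) q5 q6 q7)

/-- **Conductors `3^K`, given the complex values.** -/
theorem table_general [CompleteSpace E] (h5 : 5 ≤ p) (m₀ : ℕ)
    (P : ∀ (K m : ℕ), 1 ≤ m → m ≤ p - 1 → (K = 0 → m ≠ p - 1) → (K ≤ 1 → m ≠ m₀) →
      ∀ ψ : DirichletCharacter ℂ (3 ^ K), ψ.IsPrimitive → ψ (-1) = (-1) ^ m → IsUnitAt p (lValue p m ψ))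
    {K r : ℕ} (hr : 2 ≤ r) (ψ : DirichletCharacter E (3 ^ K)) (hprim : ψ.IsPrimitive)
    (hpar : ψ (-1) = (-1) ^ (r - 1)) (hK1 : K ≤ 1 → m₀ = 0 ∨ ¬ p - 1 ∣ r - 1 + m₀) :
    ∃ z : E, z ≠ 0 ∧ (¬ (K = 0 ∧ p - 1 ∣ r - 1) → ‖z‖ = 1) ∧
      Tendsto (fun N => lApp p ψ r N) atTop (𝓝 z) := by
  obtain ⟨m, hm1, hmp, hrm⟩ := exists_m (p := p) (by omega) r
  have hmm : K ≤ 1 → m ≠ m₀ := by
    intro hK hmm
    rcases hK1 hK with h | h
    · omega
    · exact h (hmm ▸ hrm)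
  have hp2 : p ≠ 2 := by omega
  rcases Nat.eq_zero_or_pos K with hK | hK
  · subst hK
    have hodd := hp.out.odd_of_ne_two hp2
    by_cases hpole : p - 1 ∣ r - 1
    · obtain ⟨z, hz, ht⟩ := limit_pole (p := p) (E := E) ψ hr hp2 hpole
      exact ⟨z, hz, fun h => absurd ⟨rfl, hpole⟩ h, ht⟩
    · have hmne : m ≠ p - 1 := by
        intro h
        rw [h] at hrm
        exact hpole ((Nat.dvd_add_left dvd_rfl).1 hrm)
      have hone : ∀ x, ψ x = 1 := fun x => by
        have : x = 1 := Subsingleton.elim (α := ZMod 1) x 1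
        rw [this, map_one]
      have hre : Even (r - 1) := by
        rw [hone] at hpar
        rcases Nat.even_or_odd (r - 1) with h | h
        · exact h
        · rw [h.neg_one_pow] at hpar
          have h2 : (2 : E) = 0 := by linear_combination hpar
          exact absurd h2 two_ne_zero
      have hme : Even m := by
        have h4 : Even (p - 1) := by
          obtain ⟨t, ht⟩ := hodd
          exact ⟨t, by omega⟩
        have h3 := h4.trans_dvd hrm
        rw [Nat.even_add] at h3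
        exact h3.1 hre
      obtain ⟨k, hk⟩ := hme
      have hB := bern_unit (p := p) (m := m) (by omega) hmp (fun ψ' h1 => by
        refine P 0 m hm1 (by omega) (fun _ => hmne) hmm ψ' ?_ ?_
        · rw [DirichletCharacter.isPrimitive_def]
          have h2 := DirichletCharacter.conductor_dvd_level ψ'
          exact Nat.dvd_one.1 h2
        · rw [h1, Even.neg_one_pow ⟨k, hk⟩])
      have hm2 : m = 2 * k := by omega
      obtain ⟨t, ht⟩ := hodd
      obtain ⟨z, hz, ht'⟩ := limit_one (p := p) (E := E) ψ (k := k) (r := r) (by omega) (by omega) hr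
        (by rw [← hm2]; exact hrm) (by rw [← hm2]; exact hB)
      exact ⟨z, fun h => by rw [h, norm_zero] at hz; exact zero_ne_one hz, fun _ => hz, ht'⟩
  · have h3K : 1 < 3 ^ K := Nat.one_lt_pow hK.ne' (by norm_num)
    have hF : 0 < 3 ^ K := by omega
    have : NeZero (3 ^ K) := ⟨hF.ne'⟩
    have hpF : ¬ p ∣ 3 ^ K := by
      intro h
      have h2 := (Nat.prime_dvd_prime_iff_eq hp.out Nat.prime_three).1 (hp.out.dvd_of_dvd_pow h)
      omega
    have hψ : ψ ≠ 1 := by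
      intro h
      rw [h, DirichletCharacter.isPrimitive_def, DirichletCharacter.conductor_one] at hprim
      omega
    obtain ⟨ψ', g1, g2, g3, g4⟩ := transfer (p := p) hF ψ
    have hpar' := parity hp2 hrm ψ ψ' g1 g2 hpar
    have hcond : DirichletCharacter.conductor ψ' = ψ.conductor := cond_eq ψ ψ' g3
    obtain ⟨q5, c, hcc, q6, q7⟩ := P K m hm1 (by omega) (by omega) hmm ψ'
      (by rw [DirichletCharacter.isPrimitive_def, hcond]; exact hprim) hpar'
    rw [lValue_eq (by omega)] at q5 q6 q7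
    obtain ⟨z, hz, ht⟩ := limit hF hpF ψ hψ hr hm1 hmp hrm (g4 m c (not_dvd_of_coprime hcc) q5 q6 q7)
    exact ⟨z, fun h => by rw [h, norm_zero] at hz; exact zero_ne_one hz, fun _ => hz, ht⟩

end Pool.Agent.Q22.PL
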