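import Pool.Agent.Q22.PL.Char
import Pool.Agent.TH350.SC.Main

/-!
# The limits
-/

set_option autoImplicit false
set_option linter.unusedSectionVars false

namespace Pool.Agent.Q22.PL

open Finset Filter Topology

variable {p : ℕ} [hp : Fact p.Prime] {E : Type*} [NormedField E] [IsUltrametricDist E] [NormedAlgebra ℚ_[p] E]
  [CharZero E]

/-- The approximants `1/((r-1) F p^N) ∑_{0 ≤ a < F p^N, p ∤ a} ψ(a) a^{1-r}`. -/
noncomputable def lApp (p : ℕ) {F : ℕ} (ψ : MulChar (ZMod F) E) (r N : ℕ) : E :=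
  (∑ a ∈ (range (F * p ^ N)).filter (fun a => ¬ p ∣ a), ψ (a : ZMod F) * ((a : E) ^ (r - 1))⁻¹) /
    (((r : E) - 1) * ((F : E) * (p : E) ^ N))

lemma lApp_eq {F : ℕ} (ψ : MulChar (ZMod F) E) {r : ℕ} (hr : 2 ≤ r) (N : ℕ) :
    lApp p ψ r N = (∑ n ∈ range (F * p ^ N), ψ (n : ZMod F) * gi p (r - 1) n) /
      (((r - 1 : ℕ) : E) * ((F : E) * (p : E) ^ N)) := by
  unfold lApp
  rw [Nat.cast_sub (by omega), Nat.cast_one]
  congr 1
  rw [Finset.sum_filter]
  refine Finset.sum_congr rfl fun a _ => ?_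
  unfold gi
  by_cases h : p ∣ a
  · rw [if_neg (not_not.2 h), if_pos h, mul_zero]
  · rw [if_pos h, if_neg h]

lemma tendsto_small : Tendsto (fun N : ℕ => ((p : ℝ) ^ N)⁻¹) atTop (𝓝 0) := by
  have hp1 : (1 : ℝ) < p := by exact_mod_cast hp.out.one_lt
  exact (tendsto_pow_atTop_atTop_of_one_lt hp1).inv_tendsto_atTop

/-- **Nontrivial characters.** -/
theorem limit [CompleteSpace E] {F : ℕ} (hF : 0 < F) (hpF : ¬ p ∣ F) (ψ : MulChar (ZMod F) E) (hψ : ψ ≠ 1)
    {r m : ℕ} (hr : 2 ≤ r) (hm : 1 ≤ m) (hmp : m + 1 ≤ p) (hrm : p - 1 ∣ r - 1 + m)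
    (hu : ‖(1 - ψ (p : ZMod F) * (p : E) ^ (m - 1)) *
      ((F : E) ^ (m - 1) * BB F m (fun n => ψ (n : ZMod F))) / m‖ = 1) :
    ∃ z : E, ‖z‖ = 1 ∧ Tendsto (fun N => lApp p ψ r N) atTop (𝓝 z) := by
  have : NeZero F := ⟨hF.ne'⟩
  have hD := data hF hpF ψ hψ
  set f : ℕ → E := fun n => ψ (n : ZMod F) with hf
  have hp1 : (1 : ℝ) < p := by exact_mod_cast hp.out.one_lt
  have hpi : (p : ℝ)⁻¹ < 1 := inv_lt_one_of_one_lt₀ hp1
  have hFn : ‖(F : E)‖ = 1 := norm_nat_unit p hpF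
  have hF0 : (F : E) ≠ 0 := Nat.cast_ne_zero.2 hF.ne'
  have hmn : ‖(m : E)‖ = 1 := norm_nat_unit p (Nat.not_dvd_of_pos_of_lt hm (by omega))
  have hm0 : (m : E) ≠ 0 := Nat.cast_ne_zero.2 (by omega)
  -- the first sum is a unit
  have h1 := first hD hm hmp (by omega : 1 ≤ r) hrm (ψ (p : ZMod F)) (char_le ψ _) (fun j => by
    rw [hf]
    simp only
    rw [Nat.cast_mul, map_mul])
  have h2 : ‖(F : E) * ((1 - ψ (p : ZMod F) * p ^ (m - 1)) * ((F : E) ^ (m - 1) * BB F m f))‖ = 1 := by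
    have h3 : (F : E) * ((1 - ψ (p : ZMod F) * p ^ (m - 1)) * ((F : E) ^ (m - 1) * BB F m f)) =
        F * m * ((1 - ψ (p : ZMod F) * (p : E) ^ (m - 1)) * ((F : E) ^ (m - 1) * BB F m f) / m) := by
      field_simp
    rw [h3, norm_mul, norm_mul, hFn, hmn, hu]
    norm_num
  have h3 : ‖(m : E) * SS p F f r 1‖ = 1 := norm_eq_one_of_sub h2 (h1.trans_lt hpi)
  rw [norm_mul, hmn, one_mul] at h3
  obtain ⟨z, hz, hz1⟩ := SS_conv hD r
  have h4 : ‖z‖ = 1 := norm_eq_one_of_sub h3 (hz1.trans_lt hpi)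
  refine ⟨- z / F, by rw [norm_div, norm_neg, h4, hFn, div_one], ?_⟩
  -- the approximants
  have hs0 : ((r - 1 : ℕ) : E) ≠ 0 := Nat.cast_ne_zero.2 (by omega)
  have h5 : ∀ N, 1 ≤ N → ‖lApp p ψ r N - (- SS p F f r N / F)‖ ≤ ((p : ℝ) ^ N)⁻¹ / ‖((r - 1 : ℕ) : E)‖ := by
    intro N hN
    have h6 := approx hD (r - 1) hN
    rw [show r - 1 + 1 = r by omega] at h6
    have hpN : (p : E) ^ N ≠ 0 := pow_ne_zero _ (natCast_p_ne (p := p))
    have h7 : lApp p ψ r N - (- SS p F f r N / F) =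
        (∑ n ∈ range (F * p ^ N), f n * gi p (r - 1) n + ((r - 1 : ℕ) : E) * p ^ N * SS p F f r N) /
          (((r - 1 : ℕ) : E) * ((F : E) * (p : E) ^ N)) := by
      rw [lApp_eq ψ hr]
      field_simp
      ring
    rw [h7, norm_div, norm_mul, norm_mul, hFn, one_mul, norm_pow, norm_p (p := p), inv_pow]
    have hsn : 0 < ‖((r - 1 : ℕ) : E)‖ := norm_pos_iff.2 hs0
    have hpn : (0 : ℝ) < (p : ℝ) ^ N := by positivity
    rw [div_le_div_iff₀ (by positivity) hsn]
    calc _ ≤ ((p : ℝ) ^ (2 * N))⁻¹ * ‖((r - 1 : ℕ) : E)‖ := mul_le_mul_of_nonneg_right h6 hsn.le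
      _ = _ := by
        rw [two_mul, pow_add, mul_inv]
        ring
  have h6 : Tendsto (fun N => lApp p ψ r N - (- SS p F f r N / F)) atTop (𝓝 0) := by
    refine squeeze_zero_norm' (a := fun N => ((p : ℝ) ^ N)⁻¹ / ‖((r - 1 : ℕ) : E)‖) ?_ ?_
    · filter_upwards [eventually_ge_atTop 1] with N hN
      exact h5 N hN
    · have := (tendsto_small (p := p)).div_const ‖((r - 1 : ℕ) : E)‖
      rwa [zero_div] at this
  have h7 : Tendsto (fun N => - SS p F f r N / F) atTop (𝓝 (- z / F)) := (hz.neg).div_const _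
  have h8 := h6.add h7
  rw [zero_add] at h8
  exact h8.congr fun N => by ring

/-- the trivial character, away from the pole -/
theorem limit_one [CompleteSpace E] (ψ : MulChar (ZMod 1) E) {k r : ℕ} (hk : 1 ≤ k) (hkp : 2 * k + 3 ≤ p) (hr : 2 ≤ r)
    (hrk : p - 1 ∣ r - 1 + 2 * k) (hB : ¬ (p : ℤ) ∣ (_root_.bernoulli (2 * k)).num) :
    ∃ z : E, ‖z‖ = 1 ∧ Tendsto (fun N => lApp p ψ r N) atTop (𝓝 z) := by
  obtain ⟨z, hz, ht⟩ := Pool.Agent.TH350.SC.zetaUnit (p := p) hk hkp hr hrk hB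
  refine ⟨algebraMap ℚ_[p] E z, by rw [norm_algebraMap', hz], ?_⟩
  have hc : Continuous (algebraMap ℚ_[p] E) := continuous_algebraMap ℚ_[p] E
  refine ((hc.tendsto z).comp ht).congr fun N => ?_
  have hψ : ∀ x, ψ x = 1 := fun x => by
    have : x = 1 := Subsingleton.elim (α := ZMod 1) x 1
    rw [this, map_one]
  unfold lApp Pool.Agent.TH350.SC.zetaApprox
  simp only [Function.comp, map_div₀, map_mul, map_sub, map_one, map_natCast, map_pow, map_sum, map_inv₀, hψ, one_mul,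
    Nat.cast_one]

lemma reflect {N t : ℕ} (hN : 1 ≤ N) (hp2 : p ≠ 2) (ht : Odd t) :
    ‖∑ a ∈ range (p ^ N), (gi p t a : E)‖ ≤ ((p : ℝ) ^ N)⁻¹ := by
  have hM : 0 < p ^ N := Nat.pow_pos hp.out.pos
  obtain ⟨M, hMM⟩ : ∃ M, p ^ N = M + 1 := ⟨p ^ N - 1, by omega⟩
  have h0 : (gi p t 0 : E) = 0 := by unfold gi; rw [if_pos (dvd_zero p)]
  have h2 : ‖(2 : E)‖ = 1 := by
    have : ¬ p ∣ 2 := fun h => hp2 ((Nat.prime_dvd_prime_iff_eq hp.out Nat.prime_two).1 h)
    have h3 := norm_nat_unit (E := E) p this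
    simpa using h3
  have h1 : ∑ a ∈ range (p ^ N), (gi p t a : E) = ∑ j ∈ range M, gi p t (j + 1) := by
    rw [hMM, Finset.sum_range_succ', h0, add_zero]
  have h3 : ∑ j ∈ range M, (gi p t (j + 1) : E) = ∑ j ∈ range M, gi p t (M - 1 - j + 1) :=
    (Finset.sum_range_reflect (fun j => (gi p t (j + 1) : E)) M).symm
  have h4 : (2 : E) * ∑ a ∈ range (p ^ N), (gi p t a : E) =
      ∑ j ∈ range M, (gi p t (j + 1) + gi p t (M - 1 - j + 1)) := by
    rw [Finset.sum_add_distrib, ← h3, h1]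
    ring
  have h5 : ‖(2 : E) * ∑ a ∈ range (p ^ N), (gi p t a : E)‖ ≤ ((p : ℝ) ^ N)⁻¹ := by
    rw [h4]
    refine sum_le _ _ (by positivity) fun j hj => ?_
    have hj' := mem_range.1 hj
    set a := j + 1 with ha
    set b := M - 1 - j + 1 with hb
    have hab : a + b = p ^ N := by omega
    have hpab : p ∣ a + b := by
      rw [hab]
      exact dvd_pow_self p (by omega)
    have hiff : p ∣ b ↔ p ∣ a := by
      constructor
      · intro h
        exact (Nat.dvd_add_left h).1 hpab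
      · intro h
        exact (Nat.dvd_add_right h).1 hpab
    unfold gi
    by_cases h : p ∣ a
    · rw [if_pos h, if_pos (hiff.2 h), add_zero, norm_zero]
      positivity
    · have h' : ¬ p ∣ b := fun h1 => h (hiff.1 h1)
      rw [if_neg h, if_neg h']
      have n1 : ‖((a : E)) ^ t‖ = 1 := by rw [norm_pow, norm_nat_unit p h, one_pow]
      have n2 : ‖((b : E)) ^ t‖ = 1 := by rw [norm_pow, norm_nat_unit p h', one_pow]
      have z1 : ((a : E)) ^ t ≠ 0 := fun h1 => by rw [h1, norm_zero] at n1; exact zero_ne_one n1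
      have z2 : ((b : E)) ^ t ≠ 0 := fun h1 => by rw [h1, norm_zero] at n2; exact zero_ne_one n2
      have h6 : ((a : E) ^ t)⁻¹ + ((b : E) ^ t)⁻¹ = (((a : ℤ) ^ t + (b : ℤ) ^ t : ℤ) : E) / ((a : E) ^ t * (b : E) ^ t) := by
        push_cast
        field_simp
        ring
      rw [h6, norm_div, norm_mul, n1, n2, mul_one, div_one]
      refine norm_int_dvd p ?_
      refine dvd_trans ?_ (Odd.add_dvd_pow_add_pow (a : ℤ) (b : ℤ) ht)
      have : (a : ℤ) + b = (p : ℤ) ^ N := by exact_mod_cast hab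
      rw [this]
  rwa [norm_mul, h2, one_mul] at h5

/-- the trivial character at the pole -/
theorem limit_pole [CompleteSpace E] (ψ : MulChar (ZMod 1) E) {r : ℕ} (hr : 2 ≤ r) (hp2 : p ≠ 2)
    (hrp : p - 1 ∣ r - 1) : ∃ z : E, z ≠ 0 ∧ Tendsto (fun N => lApp p ψ r N) atTop (𝓝 z) := by
  set s := r - 1 with hs
  have hs1 : 1 ≤ s := by omega
  have hpE : (p : E) ≠ 0 := natCast_p_ne (p := p)
  have hp1 : (1 : ℝ) < p := by exact_mod_cast hp.out.one_lt
  have hp0 : (0 : ℝ) < p := by positivity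
  have hodd := hp.out.odd_of_ne_two hp2
  have hse : Even s := by
    have h1 : Even (p - 1) := by
      obtain ⟨t, ht⟩ := hodd
      exact ⟨t, by omega⟩
    exact h1.trans_dvd hrp
  have ht : Odd (s + 1) := hse.add_one
  obtain ⟨q, hq⟩ := hodd
  set T : ℕ → E := fun N => (∑ a ∈ range (p ^ N), (gi p s a : E)) / (p : E) ^ N with hT
  have hstep : ∀ N, 1 ≤ N → ‖T (N + 1) - T N‖ ≤ ((p : ℝ) ^ N)⁻¹ * p := by
    intro N hN
    have hpN : (p : E) ^ N ≠ 0 := pow_ne_zero _ hpE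
    have hpN1 : (p : E) ^ (N + 1) ≠ 0 := pow_ne_zero _ hpE
    have e1 : ∑ a ∈ range (p ^ (N + 1)), (gi p s a : E) = ∑ a ∈ range (p ^ N), ∑ i ∈ range p, gi p s (a + p ^ N * i) := by
      rw [pow_succ, sum_mul_range, Finset.sum_comm]
    have hgauss : ∑ i ∈ range p, (i : E) = p * q := by
      have h1 := Finset.sum_range_id_mul_two p
      have h2 : (∑ i ∈ range p, i) * 2 = p * q * 2 := by
        rw [h1]
        have : p - 1 = 2 * q := by omega
        rw [this]
        ring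
      have h3 : ∑ i ∈ range p, i = p * q := by omega
      rw [← Nat.cast_sum, h3]
      push_cast
      ring
    have e2 : ∑ a ∈ range (p ^ N), ∑ i ∈ range p, ((gi p s a : E) - s * p ^ N * i * gi p (s + 1) a) =
        p * ∑ a ∈ range (p ^ N), (gi p s a : E) - s * p ^ (N + 1) * q * ∑ a ∈ range (p ^ N), gi p (s + 1) a := by
      rw [Finset.mul_sum, Finset.mul_sum, ← Finset.sum_sub_distrib]
      refine Finset.sum_congr rfl fun a _ => ?_
      rw [Finset.sum_sub_distrib, Finset.sum_const, Finset.card_range, nsmul_eq_mul]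
      have h1 : ∀ i ∈ range p, (s : E) * p ^ N * i * gi p (s + 1) a = (s * p ^ N * gi p (s + 1) a) * i := fun i _ => by ring
      rw [Finset.sum_congr rfl h1, ← Finset.mul_sum, hgauss, pow_succ]
      ring
    have e3 : ‖∑ a ∈ range (p ^ N), ∑ i ∈ range p, (gi p s (a + p ^ N * i) : E) -
        ∑ a ∈ range (p ^ N), ∑ i ∈ range p, ((gi p s a : E) - s * p ^ N * i * gi p (s + 1) a)‖ ≤ ((p : ℝ) ^ (2 * N))⁻¹ := by
      rw [← Finset.sum_sub_distrib]
      refine sum_le _ _ (by positivity) fun a _ => ?_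
      rw [← Finset.sum_sub_distrib]
      refine sum_le _ _ (by positivity) fun i _ => ?_
      have h1 := gi_exp (p := p) (E := E) hN s a i
      have h2 : (gi p s (a + p ^ N * i) : E) - (gi p s a - s * p ^ N * i * gi p (s + 1) a) =
          gi p s (a + p ^ N * i) - gi p s a + s * p ^ N * i * gi p (s + 1) a := by ring
      rw [h2]
      exact h1
    have e4 : T (N + 1) - T N = (∑ a ∈ range (p ^ N), ∑ i ∈ range p, (gi p s (a + p ^ N * i) : E) -
        ∑ a ∈ range (p ^ N), ∑ i ∈ range p, ((gi p s a : E) - s * p ^ N * i * gi p (s + 1) a)) / (p : E) ^ (N + 1) -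
        (s * q : ℕ) * ∑ a ∈ range (p ^ N), gi p (s + 1) a := by
      rw [hT]
      simp only
      rw [e1, e2]
      push_cast
      rw [pow_succ]
      field_simp
      ring
    rw [e4]
    refine sub_le ?_ ?_
    · rw [norm_div, norm_pow, norm_p (p := p), inv_pow, div_inv_eq_mul]
      calc _ ≤ ((p : ℝ) ^ (2 * N))⁻¹ * (p : ℝ) ^ (N + 1) := mul_le_mul_of_nonneg_right e3 (by positivity)
        _ = _ := by
          rw [two_mul, pow_add, pow_succ]
          field_simp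
    · rw [norm_mul]
      calc _ ≤ 1 * ((p : ℝ) ^ N)⁻¹ := mul_le_mul (nat_le _) (reflect hN hp2 ht) (norm_nonneg _) zero_le_one
        _ ≤ ((p : ℝ) ^ N)⁻¹ * p := by
          rw [one_mul]
          exact le_mul_of_one_le_right (by positivity) hp1.le
  -- the first term
  have hT1 : ‖T 1‖ = p := by
    have h1 : ‖∑ a ∈ range (p ^ 1), (gi p s a : E) - (-1)‖ ≤ (p : ℝ)⁻¹ := by
      have h2 : (-1 : E) = ∑ a ∈ range p, ((if p ∣ a then (0 : E) else (a : E) ^ 0)) - p := by
        have hpos := hp.out.pos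
        obtain ⟨M, hM⟩ : ∃ M, p = M + 1 := ⟨p - 1, by omega⟩
        have h3 : ∑ a ∈ range p, ((if p ∣ a then (0 : E) else (a : E) ^ 0)) = ((p - 1 : ℕ) : E) := by
          have h4 : ∀ a ∈ range p, (if p ∣ a then (0 : E) else (a : E) ^ 0) = if a = 0 then 0 else 1 := by
            intro a ha
            have ha' := mem_range.1 ha
            by_cases h0 : a = 0
            · subst h0
              simp
            · rw [if_neg (Nat.not_dvd_of_pos_of_lt (by omega) ha'), if_neg h0, pow_zero]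
          rw [Finset.sum_congr rfl h4]
          obtain ⟨M, hM⟩ : ∃ M, p = M + 1 := ⟨p - 1, by omega⟩
          rw [hM, Finset.sum_range_succ', if_pos rfl, add_zero, Nat.add_sub_cancel]
          simp
        rw [h3, Nat.cast_sub hpos]
        push_cast
        ring
      rw [h2, pow_one, sub_sub_eq_add_sub, add_comm, add_sub_assoc]
      refine add_le (le_of_eq (norm_p p)) ?_
      rw [← Finset.sum_sub_distrib]
      refine sum_le _ _ (by positivity) fun a _ => ?_
      have h3 : gi p s a = (gi p s a : E) := rfl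
      unfold gi
      split_ifs with h
      · rw [sub_zero, norm_zero]
        positivity
      · have n1 : ‖((a : E)) ^ s‖ = 1 := by rw [norm_pow, norm_nat_unit p h, one_pow]
        have z1 : ((a : E)) ^ s ≠ 0 := fun h1 => by rw [h1, norm_zero] at n1; exact zero_ne_one n1
        have h4 : ((a : E) ^ s)⁻¹ - (a : E) ^ 0 = ((1 - (a : ℤ) ^ s : ℤ) : E) / (a : E) ^ s := by
          rw [eq_div_iff z1, sub_mul, inv_mul_cancel₀ z1]
          push_cast
          ring
        rw [h4, norm_div, n1, div_one]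
        have h5 := norm_int_dvd (E := E) p (N := 1) (z := 1 - (a : ℤ) ^ s) ?_
        · rwa [pow_one] at h5
        · rw [pow_one, ← ZMod.intCast_zmod_eq_zero_iff_dvd]
          push_cast
          obtain ⟨t, ht⟩ := hrp
          have h6 : (a : ZMod p) ≠ 0 := fun h7 => h ((ZMod.natCast_eq_zero_iff a p).1 h7)
          rw [ht, pow_mul, ZMod.pow_card_sub_one_eq_one h6, one_pow, sub_self]
    have h2 : ‖∑ a ∈ range (p ^ 1), (gi p s a : E)‖ = 1 :=
      norm_eq_one_of_sub (by rw [norm_neg, norm_one]) (h1.trans_lt (inv_lt_one_of_one_lt₀ hp1))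
    rw [hT]
    simp only
    rw [norm_div, h2, norm_pow, norm_p (p := p), pow_one, one_div, inv_inv]
  have hT2 : ‖T 2‖ = p := by
    have h1 := hstep 1 le_rfl
    rw [pow_one, inv_mul_cancel₀ hp0.ne'] at h1
    have h2 : T 2 = T 1 + (T 2 - T 1) := by ring
    rw [h2, IsUltrametricDist.norm_add_eq_max_of_norm_ne_norm (by rw [hT1]; exact (h1.trans_lt hp1).ne'), hT1]
    exact max_eq_left (h1.trans hp1.le)
  obtain ⟨z, hz, hz1⟩ := conv (p := p) (fun N => T (N + 2)) (fun N => by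
    refine (hstep (N + 2) (by omega)).trans (le_of_eq ?_)
    rw [pow_succ (p : ℝ) (N + 1)]
    field_simp)
  have hz0 : z ≠ 0 := by
    rintro rfl
    have h1 : ‖T 2‖ ≤ (p : ℝ)⁻¹ := by
      have := hz1
      rw [zero_sub, norm_neg] at this
      exact this
    rw [hT2] at h1
    exact absurd (h1.trans_lt (inv_lt_one_of_one_lt₀ hp1)) (not_lt.2 hp1.le)
  have hs0 : ((s : ℕ) : E) ≠ 0 := Nat.cast_ne_zero.2 (by omega)
  refine ⟨z / s, div_ne_zero hz0 hs0, ?_⟩
  have hz' : Tendsto T atTop (𝓝 z) := (tendsto_add_atTop_iff_nat 2).1 hz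
  refine (hz'.div_const (s : E)).congr fun N => ?_
  have hψ : ∀ x, ψ x = 1 := fun x => by
    have : x = 1 := Subsingleton.elim (α := ZMod 1) x 1
    rw [this, map_one]
  rw [lApp_eq ψ hr, hT]
  simp only [hψ, one_mul, Nat.cast_one]
  rw [div_div, mul_comm ((p : E) ^ N)]

end Pool.Agent.Q22.PL
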