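import Mathlib

/-!
# Riemann sums for the measure of a periodic function of mean zero
-/

set_option autoImplicit false
set_option linter.unusedSectionVars false

namespace Pool.Agent.Q22.PL

open Finset Filter Topology

lemma sum_mul_range {M : Type*} [AddCommMonoid M] (a b : ℕ) (g : ℕ → M) :
    ∑ l ∈ range (a * b), g l = ∑ j ∈ range b, ∑ i ∈ range a, g (i + a * j) := by
  induction b with
  | zero => simp
  | succ b ih =>
    rw [Nat.mul_succ, Finset.sum_range_add, ih, Finset.sum_range_succ]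
    congr 1
    refine Finset.sum_congr rfl fun i _ => ?_
    rw [add_comm]

/-- integer divisibility -/
lemma sq_dvd_pow (a t : ℤ) : ∀ m : ℕ, t ^ 2 ∣ (a + t) ^ m - a ^ m - m * a ^ (m - 1) * t
  | 0 => by simp
  | m + 1 => by
    obtain ⟨w, hw⟩ := sq_dvd_pow a t m
    rcases Nat.eq_zero_or_pos m with h | h
    · subst h
      simp
    · have h1 : a ^ m = a ^ (m - 1) * a := by
        rw [← pow_succ]
        congr 1
        omega
      refine ⟨w * (a + t) + m * a ^ (m - 1), ?_⟩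
      rw [Nat.add_sub_cancel]
      push_cast
      have h2 : (a + t) ^ (m + 1) = (a + t) ^ m * (a + t) := pow_succ _ _
      have h3 : a ^ (m + 1) = a ^ m * a := pow_succ _ _
      rw [h2, h3]
      linear_combination (a + t) * hw - (m * t) * h1

lemma sq_dvd_inv (a b : ℤ) : ∀ s : ℕ, (b - a) ^ 2 ∣ a ^ (s + 1) - a * b ^ s + s * (b - a) * b ^ s
  | 0 => by simp
  | s + 1 => by
    obtain ⟨w, hw⟩ := sq_dvd_inv a b s
    obtain ⟨v, hv⟩ := sub_dvd_pow_sub_pow b a (s + 1)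
    refine ⟨w * b + v, ?_⟩
    push_cast
    have h2 : b ^ (s + 1) = b ^ s * b := pow_succ _ _
    have h3 : a ^ (s + 1 + 1) = a ^ (s + 1) * a := pow_succ _ _
    rw [h3]
    linear_combination b * hw + (b - a) * hv + (-a + s * (b - a)) * (h2 - h2)

variable {p : ℕ} [hp : Fact p.Prime] {E : Type*} [NormedField E] [IsUltrametricDist E] [NormedAlgebra ℚ_[p] E]

lemma nat_le (n : ℕ) : ‖(n : E)‖ ≤ 1 := IsUltrametricDist.norm_natCast_le_one E n

lemma int_le (n : ℤ) : ‖(n : E)‖ ≤ 1 := IsUltrametricDist.norm_intCast_le_one E n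

variable (p) in
lemma norm_p : ‖(p : E)‖ = (p : ℝ)⁻¹ := by
  rw [← map_natCast (algebraMap ℚ_[p] E) p, norm_algebraMap', Padic.norm_p]

variable (p) in
lemma norm_int_dvd {z : ℤ} {N : ℕ} (h : (p : ℤ) ^ N ∣ z) : ‖(z : E)‖ ≤ ((p : ℝ) ^ N)⁻¹ := by
  obtain ⟨w, rfl⟩ := h
  push_cast
  rw [norm_mul, norm_pow, norm_p (p := p), inv_pow]
  have h1 := int_le (E := E) w
  have h2 : (0 : ℝ) ≤ ((p : ℝ) ^ N)⁻¹ := by positivity
  calc _ ≤ ((p : ℝ) ^ N)⁻¹ * 1 := mul_le_mul_of_nonneg_left h1 h2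
    _ = _ := mul_one _

variable (p) in
lemma norm_nat_unit {a : ℕ} (h : ¬ p ∣ a) : ‖(a : E)‖ = 1 := by
  rw [← map_natCast (algebraMap ℚ_[p] E) a, norm_algebraMap']
  exact Padic.norm_natCast_eq_one_iff.2 ((Nat.coprime_comm).1 ((hp.out.coprime_iff_not_dvd).2 h)).symm

lemma sum_le {ι : Type*} (s : Finset ι) (f : ι → E) {C : ℝ} (hC : 0 ≤ C) (h : ∀ i ∈ s, ‖f i‖ ≤ C) :
    ‖∑ i ∈ s, f i‖ ≤ C := IsUltrametricDist.norm_sum_le_of_forall_le_of_nonneg hC h

lemma add_le {x y : E} {C : ℝ} (hx : ‖x‖ ≤ C) (hy : ‖y‖ ≤ C) : ‖x + y‖ ≤ C :=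
  (IsUltrametricDist.norm_add_le_max x y).trans (max_le hx hy)

lemma sub_le {x y : E} {C : ℝ} (hx : ‖x‖ ≤ C) (hy : ‖y‖ ≤ C) : ‖x - y‖ ≤ C := by
  rw [sub_eq_add_neg]
  exact add_le hx (by rwa [norm_neg])

lemma norm_eq_one_of_sub {x y : E} (hx : ‖x‖ = 1) (h : ‖y - x‖ < 1) : ‖y‖ = 1 := by
  have h1 : y = x + (y - x) := by ring
  rw [h1, IsUltrametricDist.norm_add_eq_max_of_norm_ne_norm (by rw [hx]; exact h.ne'), hx]
  exact max_eq_left h.le

/-- the data: a periodic function all of whose sums over the residue classes modulo `p^N` vanish -/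
structure Data (p F : ℕ) (f : ℕ → E) : Prop where
  pos : 0 < F
  cop : ¬ p ∣ F
  per : ∀ n, f (n + F) = f n
  le : ∀ n, ‖f n‖ ≤ 1
  sum : ∀ N a, ∑ j ∈ range F, f (a + p ^ N * j) = 0

/-- the first moment along a class modulo `p ^ N` -/
noncomputable def cc (p F : ℕ) (f : ℕ → E) (N a : ℕ) : E := ∑ j ∈ range F, (j : E) * f (a + p ^ N * j)

lemma Data.per_mul {F : ℕ} {f : ℕ → E} (h : Data p F f) (n i : ℕ) : f (n + F * i) = f n := by
  induction i with
  | zero => simp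
  | succ i ih => rw [Nat.mul_succ, ← add_assoc, h.per, ih]

lemma cc_le {F : ℕ} {f : ℕ → E} (h : Data p F f) (N a : ℕ) : ‖cc p F f N a‖ ≤ 1 := by
  refine sum_le _ _ zero_le_one fun j _ => ?_
  rw [norm_mul]
  exact mul_le_one₀ (nat_le _) (norm_nonneg _) (h.le _)

lemma natCast_p_ne : (p : E) ≠ 0 := by
  intro h
  have h1 := norm_p (E := E) p
  rw [h, norm_zero] at h1
  have : (0 : ℝ) < (p : ℝ)⁻¹ := inv_pos.2 (by exact_mod_cast hp.out.pos)
  rw [← h1] at this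
  exact lt_irrefl _ this

lemma cc_add {F : ℕ} {f : ℕ → E} (h : Data p F f) (N a : ℕ) :
    ∑ i ∈ range p, cc p F f (N + 1) (a + p ^ N * i) = cc p F f N a := by
  have e1 : ∑ l ∈ range (F * p), (l : E) * f (a + p ^ N * l) = p * cc p F f N a := by
    rw [sum_mul_range]
    have : ∀ i ∈ range p, ∑ j ∈ range F, ((j + F * i : ℕ) : E) * f (a + p ^ N * (j + F * i)) = cc p F f N a := by
      intro i _
      have h1 : ∀ j, f (a + p ^ N * (j + F * i)) = f (a + p ^ N * j) := by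
        intro j
        have : a + p ^ N * (j + F * i) = a + p ^ N * j + F * (p ^ N * i) := by ring
        rw [this, h.per_mul]
      simp only [h1]
      have h2 : ∀ j, ((j + F * i : ℕ) : E) * f (a + p ^ N * j) = (j : E) * f (a + p ^ N * j) +
          ((F * i : ℕ) : E) * f (a + p ^ N * j) := by
        intro j
        push_cast
        ring
      simp only [h2]
      rw [Finset.sum_add_distrib, ← Finset.mul_sum, h.sum, mul_zero, add_zero]
      rfl
    rw [Finset.sum_congr rfl this, Finset.sum_const, Finset.card_range, nsmul_eq_mul]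
  have e2 : ∑ l ∈ range (F * p), (l : E) * f (a + p ^ N * l) =
      p * ∑ i ∈ range p, cc p F f (N + 1) (a + p ^ N * i) := by
    rw [mul_comm F p, sum_mul_range, Finset.sum_comm, Finset.mul_sum]
    refine Finset.sum_congr rfl fun i _ => ?_
    have h1 : ∀ j, a + p ^ N * (i + p * j) = a + p ^ N * i + p ^ (N + 1) * j := by
      intro j
      ring
    simp only [h1]
    have h2 : ∀ j, ((i + p * j : ℕ) : E) * f (a + p ^ N * i + p ^ (N + 1) * j) =
        (i : E) * f (a + p ^ N * i + p ^ (N + 1) * j) + (p : E) * ((j : E) * f (a + p ^ N * i + p ^ (N + 1) * j)) := by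
      intro j
      push_cast
      ring
    simp only [h2]
    rw [Finset.sum_add_distrib, ← Finset.mul_sum, h.sum, mul_zero, zero_add, ← Finset.mul_sum]
    rfl
  exact mul_left_cancel₀ (natCast_p_ne (E := E) (p := p)) (e2.symm.trans e1)

/-- `a ^ (-r)` for `a` prime to `p` -/
noncomputable def gi (p r a : ℕ) : E := if p ∣ a then 0 else ((a : E) ^ r)⁻¹

lemma gi_le (r a : ℕ) : ‖(gi p r a : E)‖ ≤ 1 := by
  unfold gi
  split_ifs with h
  · rw [norm_zero]
    exact zero_le_one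
  · rw [norm_inv, norm_pow, norm_nat_unit p h, one_pow, inv_one]

lemma gi_sub {N : ℕ} (hN : 1 ≤ N) (r a i : ℕ) :
    ‖(gi p r (a + p ^ N * i) : E) - gi p r a‖ ≤ ((p : ℝ) ^ N)⁻¹ := by
  have hpN : p ∣ p ^ N * i := Dvd.dvd.mul_right (dvd_pow_self p (by omega)) i
  have hiff : p ∣ a + p ^ N * i ↔ p ∣ a := (Nat.dvd_add_left hpN)
  have h0 : (0 : ℝ) ≤ ((p : ℝ) ^ N)⁻¹ := by positivity
  unfold gi
  by_cases h : p ∣ a
  · rw [if_pos h, if_pos (hiff.2 h), sub_zero, norm_zero]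
    exact h0
  · have h' : ¬ p ∣ a + p ^ N * i := fun h1 => h (hiff.1 h1)
    rw [if_neg h, if_neg h']
    have n1 : ‖((a : E)) ^ r‖ = 1 := by rw [norm_pow, norm_nat_unit p h, one_pow]
    have n2 : ‖(((a + p ^ N * i : ℕ) : E)) ^ r‖ = 1 := by rw [norm_pow, norm_nat_unit p h', one_pow]
    have z1 : ((a : E)) ^ r ≠ 0 := fun h1 => by rw [h1, norm_zero] at n1; exact zero_ne_one n1
    have z2 : (((a + p ^ N * i : ℕ) : E)) ^ r ≠ 0 := fun h1 => by rw [h1, norm_zero] at n2; exact zero_ne_one n2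
    rw [inv_sub_inv z2 z1, norm_div, norm_mul, n1, n2, mul_one, div_one]
    have h3 : ((a : E)) ^ r - (((a + p ^ N * i : ℕ) : E)) ^ r =
        (((a : ℤ) ^ r - ((a + p ^ N * i : ℕ) : ℤ) ^ r : ℤ) : E) := by push_cast; ring
    rw [h3]
    refine norm_int_dvd p ?_
    refine dvd_trans ?_ (sub_dvd_pow_sub_pow _ _ r)
    refine ⟨-i, ?_⟩
    push_cast
    ring

/-- the Riemann sums -/
noncomputable def SS (p F : ℕ) (f : ℕ → E) (r N : ℕ) : E := ∑ a ∈ range (p ^ N), gi p r a * cc p F f N a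

lemma SS_succ {F : ℕ} {f : ℕ → E} (h : Data p F f) (r : ℕ) {N : ℕ} (hN : 1 ≤ N) :
    ‖SS p F f r (N + 1) - SS p F f r N‖ ≤ ((p : ℝ) ^ N)⁻¹ := by
  have e1 : SS p F f r (N + 1) = ∑ a ∈ range (p ^ N), ∑ i ∈ range p,
      gi p r (a + p ^ N * i) * cc p F f (N + 1) (a + p ^ N * i) := by
    unfold SS
    rw [pow_succ, sum_mul_range, Finset.sum_comm]
  have e2 : SS p F f r N = ∑ a ∈ range (p ^ N), ∑ i ∈ range p,
      gi p r a * cc p F f (N + 1) (a + p ^ N * i) := by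
    unfold SS
    refine Finset.sum_congr rfl fun a _ => ?_
    rw [← Finset.mul_sum, cc_add h]
  rw [e1, e2, ← Finset.sum_sub_distrib]
  have h0 : (0 : ℝ) ≤ ((p : ℝ) ^ N)⁻¹ := by positivity
  refine sum_le _ _ h0 fun a _ => ?_
  rw [← Finset.sum_sub_distrib]
  refine sum_le _ _ h0 fun i _ => ?_
  rw [← sub_mul, norm_mul]
  calc _ ≤ ((p : ℝ) ^ N)⁻¹ * 1 :=
        mul_le_mul (gi_sub hN r a i) (cc_le h _ _) (norm_nonneg _) h0
    _ = _ := mul_one _

/-- a sequence with steps `≤ p^{-N}` converges, and stays near its first term -/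
lemma conv [CompleteSpace E] (T : ℕ → E) (hT : ∀ N, ‖T (N + 1) - T N‖ ≤ ((p : ℝ) ^ (N + 1))⁻¹) :
    ∃ z : E, Tendsto T atTop (𝓝 z) ∧ ‖z - T 0‖ ≤ (p : ℝ)⁻¹ := by
  have hp1 : (1 : ℝ) < p := by exact_mod_cast hp.out.one_lt
  have hr : (p : ℝ)⁻¹ < 1 := inv_lt_one_of_one_lt₀ hp1
  have hc : CauchySeq T := by
    refine cauchySeq_of_le_geometric (p : ℝ)⁻¹ (p : ℝ)⁻¹ hr fun N => ?_
    rw [dist_comm, dist_eq_norm]
    refine (hT N).trans (le_of_eq ?_)
    rw [pow_succ, mul_inv, inv_pow, mul_comm]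
  obtain ⟨z, hz⟩ := cauchySeq_tendsto_of_complete hc
  refine ⟨z, hz, ?_⟩
  have h1 : Tendsto (fun N => ‖T N - T 0‖) atTop (𝓝 ‖z - T 0‖) := (hz.sub_const _).norm
  refine le_of_tendsto h1 (Eventually.of_forall fun N => ?_)
  induction N with
  | zero =>
    rw [sub_self, norm_zero]
    positivity
  | succ N ih =>
    have h2 : T (N + 1) - T 0 = (T (N + 1) - T N) + (T N - T 0) := by ring
    rw [h2]
    refine add_le ((hT N).trans ?_) ih
    rw [inv_le_inv₀ (by positivity) (by positivity)]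
    calc (p : ℝ) = (p : ℝ) ^ 1 := (pow_one _).symm
      _ ≤ (p : ℝ) ^ (N + 1) := pow_le_pow_right₀ hp1.le (by omega)

lemma SS_conv [CompleteSpace E] {F : ℕ} {f : ℕ → E} (h : Data p F f) (r : ℕ) :
    ∃ z : E, Tendsto (fun N => SS p F f r N) atTop (𝓝 z) ∧ ‖z - SS p F f r 1‖ ≤ (p : ℝ)⁻¹ := by
  obtain ⟨z, hz, hz1⟩ := conv (p := p) (fun N => SS p F f r (N + 1)) (fun N => SS_succ h r (by omega))
  exact ⟨z, (tendsto_add_atTop_iff_nat 1).1 hz, hz1⟩

/-- expansion of `b ^ (-s)` near `a` -/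
lemma gi_exp {N : ℕ} (hN : 1 ≤ N) (s a j : ℕ) :
    ‖(gi p s (a + p ^ N * j) : E) - gi p s a + s * p ^ N * j * gi p (s + 1) a‖ ≤ ((p : ℝ) ^ (2 * N))⁻¹ := by
  have hpN : p ∣ p ^ N * j := Dvd.dvd.mul_right (dvd_pow_self p (by omega)) j
  have hiff : p ∣ a + p ^ N * j ↔ p ∣ a := (Nat.dvd_add_left hpN)
  have h0 : (0 : ℝ) ≤ ((p : ℝ) ^ (2 * N))⁻¹ := by positivity
  unfold gi
  by_cases h : p ∣ a
  · rw [if_pos h, if_pos (hiff.2 h), if_pos h, sub_zero, mul_zero, add_zero, norm_zero]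
    exact h0
  · have h' : ¬ p ∣ a + p ^ N * j := fun h1 => h (hiff.1 h1)
    rw [if_neg h, if_neg h', if_neg h]
    set b := a + p ^ N * j with hb
    have n1 : ‖((a : E))‖ = 1 := norm_nat_unit p h
    have n2 : ‖((b : E))‖ = 1 := norm_nat_unit p h'
    have z1 : ((a : E)) ≠ 0 := fun h1 => by rw [h1, norm_zero] at n1; exact zero_ne_one n1
    have z2 : ((b : E)) ≠ 0 := fun h1 => by rw [h1, norm_zero] at n2; exact zero_ne_one n2
    have hbE : (b : E) - a = (p : E) ^ N * j := by rw [hb]; push_cast; ring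
    have h3 : ((b : E) ^ s)⁻¹ - ((a : E) ^ s)⁻¹ + s * p ^ N * j * ((a : E) ^ (s + 1))⁻¹ =
        (((a : ℤ) ^ (s + 1) - a * (b : ℤ) ^ s + s * (b - a) * (b : ℤ) ^ s : ℤ) : E) /
          ((a : E) ^ (s + 1) * (b : E) ^ s) := by
      have h4 : (s : E) * p ^ N * j = s * ((b : E) - a) := by rw [hbE]; ring
      rw [h4]
      push_cast
      field_simp
      ring
    rw [h3, norm_div, norm_mul, norm_pow, norm_pow, n1, n2, one_pow, one_pow, mul_one, div_one]
    refine norm_int_dvd p ?_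
    refine dvd_trans ?_ (sq_dvd_inv (a : ℤ) (b : ℤ) s)
    refine ⟨(j : ℤ) ^ 2, ?_⟩
    have : (b : ℤ) - a = (p : ℤ) ^ N * j := by rw [hb]; push_cast; ring
    rw [this]
    ring

/-- the approximants of the `p`-adic `L`-value: `s = r - 1` -/
lemma approx {F : ℕ} {f : ℕ → E} (h : Data p F f) (s : ℕ) {N : ℕ} (hN : 1 ≤ N) :
    ‖∑ n ∈ range (F * p ^ N), f n * gi p s n + s * p ^ N * SS p F f (s + 1) N‖ ≤ ((p : ℝ) ^ (2 * N))⁻¹ := by
  have h0 : (0 : ℝ) ≤ ((p : ℝ) ^ (2 * N))⁻¹ := by positivity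
  have e1 : ∑ n ∈ range (F * p ^ N), f n * gi p s n =
      ∑ a ∈ range (p ^ N), ∑ j ∈ range F, f (a + p ^ N * j) * gi p s (a + p ^ N * j) := by
    rw [mul_comm, sum_mul_range, Finset.sum_comm]
  have e2 : (s : E) * p ^ N * SS p F f (s + 1) N =
      ∑ a ∈ range (p ^ N), ∑ j ∈ range F, f (a + p ^ N * j) * (- gi p s a + s * p ^ N * j * gi p (s + 1) a) := by
    unfold SS cc
    rw [Finset.mul_sum]
    refine Finset.sum_congr rfl fun a _ => ?_
    have h1 : ∀ j ∈ range F, f (a + p ^ N * j) * (- gi p s a + s * p ^ N * j * gi p (s + 1) a) =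
        (- gi p s a) * f (a + p ^ N * j) + (s * p ^ N * gi p (s + 1) a) * (j * f (a + p ^ N * j)) := by
      intro j _
      ring
    rw [Finset.sum_congr rfl h1, Finset.sum_add_distrib, ← Finset.mul_sum, ← Finset.mul_sum, h.sum, mul_zero,
      zero_add]
    ring
  rw [e1, e2, ← Finset.sum_add_distrib]
  refine sum_le _ _ h0 fun a _ => ?_
  rw [← Finset.sum_add_distrib]
  refine sum_le _ _ h0 fun j _ => ?_
  have h1 : f (a + p ^ N * j) * gi p s (a + p ^ N * j) +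
      f (a + p ^ N * j) * (- gi p s a + s * p ^ N * j * gi p (s + 1) a) =
      f (a + p ^ N * j) * (gi p s (a + p ^ N * j) - gi p s a + s * p ^ N * j * gi p (s + 1) a) := by ring
  rw [h1, norm_mul]
  calc _ ≤ 1 * ((p : ℝ) ^ (2 * N))⁻¹ := mul_le_mul (h.le _) (gi_exp hN s a j) (norm_nonneg _) zero_le_one
    _ = _ := one_mul _

end Pool.Agent.Q22.PL
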