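import Pool.Agent.Q22.PL.Meas

/-!
# The first Riemann sum and generalized Bernoulli numbers
-/

set_option autoImplicit false
set_option linter.unusedSectionVars false

namespace Pool.Agent.Q22.PL

open Finset Filter Topology

variable {p : ℕ} [hp : Fact p.Prime] {E : Type*} [NormedField E] [IsUltrametricDist E] [NormedAlgebra ℚ_[p] E]
  [CharZero E]

variable (p) in
lemma bern_le : ∀ k : ℕ, k + 2 ≤ p → ‖((_root_.bernoulli k : ℚ) : E)‖ ≤ 1 := by
  intro k
  induction k using Nat.strong_induction_on with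
  | _ k ih =>
    intro hk
    have h1 := sum_bernoulli (k + 1)
    rw [Finset.sum_range_succ, Nat.choose_succ_self_right] at h1
    have h2 := congrArg (fun q : ℚ => (q : E)) h1
    simp only [Rat.cast_add, Rat.cast_sum, Rat.cast_mul, Rat.cast_natCast] at h2
    have h3 : ‖((k + 1 : ℕ) : E)‖ = 1 := norm_nat_unit p (Nat.not_dvd_of_pos_of_lt (by omega) (by omega))
    have h4 : ((k + 1 : ℕ) : E) * ((_root_.bernoulli k : ℚ) : E) =
        (((if k + 1 = 1 then 1 else 0 : ℚ)) : E) - ∑ i ∈ range k, (((k + 1).choose i : ℕ) : E) * ((_root_.bernoulli i : ℚ) : E) := by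
      rw [← h2]
      ring
    have h5 : ‖((k + 1 : ℕ) : E) * ((_root_.bernoulli k : ℚ) : E)‖ ≤ 1 := by
      rw [h4]
      refine sub_le ?_ (sum_le _ _ zero_le_one fun i hi => ?_)
      · split_ifs
        · rw [Rat.cast_one, norm_one]
        · rw [Rat.cast_zero, norm_zero]
          exact zero_le_one
      · rw [norm_mul]
        exact mul_le_one₀ (nat_le _) (norm_nonneg _) (ih i (mem_range.1 hi) (by have := mem_range.1 hi; omega))
    rwa [norm_mul, h3, one_mul] at h5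

/-- power sums modulo `p ^ 2` -/
lemma powsum {l : ℕ} (hl : l + 2 ≤ p) :
    ‖∑ i ∈ range p, (i : E) ^ l - p * ((_root_.bernoulli l : ℚ) : E)‖ ≤ ((p : ℝ) ^ 2)⁻¹ := by
  have h1 := congrArg (fun q : ℚ => (q : E)) (sum_range_pow p l)
  simp only [Rat.cast_sum, Rat.cast_pow, Rat.cast_natCast, Rat.cast_mul, Rat.cast_div, Rat.cast_add, Rat.cast_one] at h1
  rw [h1, Finset.sum_range_succ]
  have h3 : ‖((l + 1 : ℕ) : E)‖ = 1 := norm_nat_unit p (Nat.not_dvd_of_pos_of_lt (by omega) (by omega))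
  have h3' : ((l + 1 : ℕ) : E) ≠ 0 := fun h => by rw [h, norm_zero] at h3; exact zero_ne_one h3
  have h4 : ((_root_.bernoulli l : ℚ) : E) * (((l + 1).choose l : ℕ) : E) * (p : E) ^ (l + 1 - l) / ((l : E) + 1) =
      p * ((_root_.bernoulli l : ℚ) : E) := by
    rw [Nat.choose_succ_self_right, show l + 1 - l = 1 by omega, pow_one]
    push_cast at h3' ⊢
    field_simp
  rw [h4, add_sub_cancel_right]
  refine sum_le _ _ (by positivity) fun k hk => ?_
  have hk' := mem_range.1 hk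
  have h5 : ‖((l : E) + 1)‖ = 1 := by
    push_cast at h3
    exact h3
  rw [norm_div, norm_mul, norm_mul, h5, div_one, norm_pow, norm_p (p := p)]
  have h6 := bern_le (E := E) p k (by omega)
  have h7 := nat_le (E := E) ((l + 1).choose k)
  have hp1 : (1 : ℝ) < p := by exact_mod_cast hp.out.one_lt
  have h8 : ((p : ℝ)⁻¹) ^ (l + 1 - k) ≤ ((p : ℝ) ^ 2)⁻¹ := by
    rw [← inv_pow]
    exact pow_le_pow_of_le_one (by positivity) (inv_le_one_of_one_le₀ hp1.le) (by omega)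
  calc _ ≤ 1 * ((p : ℝ) ^ 2)⁻¹ :=
        mul_le_mul (mul_le_one₀ h6 (norm_nonneg _) h7) h8 (by positivity) zero_le_one
    _ = _ := one_mul _

/-- the generalized Bernoulli number without the power of `F` -/
noncomputable def BB (F m : ℕ) (f : ℕ → E) : E :=
  ∑ c ∈ range F, f c * (((Polynomial.bernoulli m).eval ((c : ℚ) / F) : ℚ) : E)

lemma pow_bern {F : ℕ} (hF : 0 < F) (m c : ℕ) :
    (F : E) ^ m * (((Polynomial.bernoulli m).eval ((c : ℚ) / F) : ℚ) : E) =
      ∑ l ∈ range (m + 1), (F : E) ^ l * (c : E) ^ (m - l) * ((m.choose l : ℕ) : E) * ((_root_.bernoulli l : ℚ) : E) := by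
  have hF' : (F : E) ≠ 0 := Nat.cast_ne_zero.2 hF.ne'
  rw [Polynomial.bernoulli, Polynomial.eval_finsetSum, Rat.cast_sum, Finset.mul_sum]
  refine Finset.sum_congr rfl fun l hl => ?_
  have hl' := mem_range.1 hl
  rw [Polynomial.eval_monomial]
  push_cast
  have h1 : (F : E) ^ m = F ^ l * F ^ (m - l) := by
    rw [← pow_add]
    congr 1
    omega
  rw [h1, div_pow]
  field_simp

lemma beta {F : ℕ} {f : ℕ → E} (h : Data p F f) {m : ℕ} (hmp : m + 1 ≤ p) :
    ‖∑ n ∈ range (F * p), f n * (n : E) ^ m - p * ((F : E) ^ m * BB F m f)‖ ≤ ((p : ℝ) ^ 2)⁻¹ := by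
  have hsum0 : ∑ c ∈ range F, f c = 0 := by
    have := h.sum 0 0
    simpa using this
  have e1 : ∑ n ∈ range (F * p), f n * (n : E) ^ m = ∑ c ∈ range F, f c * ∑ l ∈ range (m + 1),
      (F : E) ^ l * (c : E) ^ (m - l) * ((m.choose l : ℕ) : E) * ∑ i ∈ range p, (i : E) ^ l := by
    rw [sum_mul_range, Finset.sum_comm]
    refine Finset.sum_congr rfl fun c _ => ?_
    have h1 : ∀ i, f (c + F * i) = f c := fun i => h.per_mul c i
    simp only [h1]
    rw [← Finset.mul_sum]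
    congr 1
    have h2 : ∀ i : ℕ, ((c + F * i : ℕ) : E) ^ m = ∑ l ∈ range (m + 1),
        (F : E) ^ l * (c : E) ^ (m - l) * ((m.choose l : ℕ) : E) * (i : E) ^ l := by
      intro i
      have : ((c + F * i : ℕ) : E) = (F : E) * i + c := by push_cast; ring
      rw [this, add_pow]
      refine Finset.sum_congr rfl fun l _ => ?_
      rw [mul_pow]
      ring
    simp only [h2]
    rw [Finset.sum_comm]
    refine Finset.sum_congr rfl fun l _ => ?_
    rw [Finset.mul_sum]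
  have e2 : (p : E) * ((F : E) ^ m * BB F m f) = ∑ c ∈ range F, f c * ∑ l ∈ range (m + 1),
      (F : E) ^ l * (c : E) ^ (m - l) * ((m.choose l : ℕ) : E) * (p * ((_root_.bernoulli l : ℚ) : E)) := by
    unfold BB
    rw [Finset.mul_sum, Finset.mul_sum]
    refine Finset.sum_congr rfl fun c _ => ?_
    have h1 := pow_bern (E := E) h.pos m c
    have h2 : ∑ l ∈ range (m + 1), (F : E) ^ l * (c : E) ^ (m - l) * ((m.choose l : ℕ) : E) * (p * ((_root_.bernoulli l : ℚ) : E)) =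
        p * ((F : E) ^ m * (((Polynomial.bernoulli m).eval ((c : ℚ) / F) : ℚ) : E)) := by
      rw [h1, Finset.mul_sum]
      refine Finset.sum_congr rfl fun l _ => ?_
      ring
    rw [h2]
    ring
  rw [e1, e2, ← Finset.sum_sub_distrib]
  have e3 : ∀ c ∈ range F, f c * ∑ l ∈ range (m + 1),
      (F : E) ^ l * (c : E) ^ (m - l) * ((m.choose l : ℕ) : E) * ∑ i ∈ range p, (i : E) ^ l -
      f c * ∑ l ∈ range (m + 1),
      (F : E) ^ l * (c : E) ^ (m - l) * ((m.choose l : ℕ) : E) * (p * ((_root_.bernoulli l : ℚ) : E)) =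
      f c * ∑ l ∈ range m, (F : E) ^ l * (c : E) ^ (m - l) * ((m.choose l : ℕ) : E) *
        (∑ i ∈ range p, (i : E) ^ l - p * ((_root_.bernoulli l : ℚ) : E)) +
      ((F : E) ^ m * (∑ i ∈ range p, (i : E) ^ m - p * ((_root_.bernoulli m : ℚ) : E))) * f c := by
    intro c _
    rw [← mul_sub, ← Finset.sum_sub_distrib, Finset.sum_range_succ, Nat.choose_self, Nat.sub_self]
    have : ∀ l ∈ range m, (F : E) ^ l * (c : E) ^ (m - l) * ((m.choose l : ℕ) : E) * ∑ i ∈ range p, (i : E) ^ l -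
        (F : E) ^ l * (c : E) ^ (m - l) * ((m.choose l : ℕ) : E) * (p * ((_root_.bernoulli l : ℚ) : E)) =
        (F : E) ^ l * (c : E) ^ (m - l) * ((m.choose l : ℕ) : E) *
        (∑ i ∈ range p, (i : E) ^ l - p * ((_root_.bernoulli l : ℚ) : E)) := fun l _ => by ring
    rw [Finset.sum_congr rfl this]
    push_cast
    ring
  rw [Finset.sum_congr rfl e3, Finset.sum_add_distrib, ← Finset.mul_sum, hsum0, mul_zero, add_zero]
  have h0 : (0 : ℝ) ≤ ((p : ℝ) ^ 2)⁻¹ := by positivity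
  refine sum_le _ _ h0 fun c _ => ?_
  rw [norm_mul]
  have h5 : ‖∑ l ∈ range m, (F : E) ^ l * (c : E) ^ (m - l) * ((m.choose l : ℕ) : E) *
        (∑ i ∈ range p, (i : E) ^ l - p * ((_root_.bernoulli l : ℚ) : E))‖ ≤ ((p : ℝ) ^ 2)⁻¹ := by
    refine sum_le _ _ h0 fun l hl => ?_
    have hl' := mem_range.1 hl
    rw [norm_mul]
    have h6 : ‖(F : E) ^ l * (c : E) ^ (m - l) * ((m.choose l : ℕ) : E)‖ ≤ 1 := by
      have : (F : E) ^ l * (c : E) ^ (m - l) * ((m.choose l : ℕ) : E) = ((F ^ l * c ^ (m - l) * m.choose l : ℕ) : E) := by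
        push_cast; ring
      rw [this]
      exact nat_le _
    calc _ ≤ 1 * ((p : ℝ) ^ 2)⁻¹ := mul_le_mul h6 (powsum (by omega)) (norm_nonneg _) zero_le_one
      _ = _ := one_mul _
  calc _ ≤ 1 * ((p : ℝ) ^ 2)⁻¹ := mul_le_mul (h.le c) h5 (norm_nonneg _) zero_le_one
    _ = _ := one_mul _

lemma BB_le {F : ℕ} {f : ℕ → E} (h : Data p F f) {m : ℕ} (hmp : m + 1 ≤ p) : ‖(F : E) ^ m * BB F m f‖ ≤ 1 := by
  have hsum0 : ∑ c ∈ range F, f c = 0 := by
    have := h.sum 0 0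
    simpa using this
  unfold BB
  rw [Finset.mul_sum]
  have e3 : ∀ c ∈ range F, (F : E) ^ m * (f c * (((Polynomial.bernoulli m).eval ((c : ℚ) / F) : ℚ) : E)) =
      f c * ∑ l ∈ range m, (F : E) ^ l * (c : E) ^ (m - l) * ((m.choose l : ℕ) : E) * ((_root_.bernoulli l : ℚ) : E) +
      ((F : E) ^ m * ((_root_.bernoulli m : ℚ) : E)) * f c := by
    intro c _
    have h1 := pow_bern (E := E) h.pos m c
    rw [Finset.sum_range_succ, Nat.choose_self, Nat.sub_self] at h1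
    have h2 : (F : E) ^ m * (f c * (((Polynomial.bernoulli m).eval ((c : ℚ) / F) : ℚ) : E)) =
        f c * ((F : E) ^ m * (((Polynomial.bernoulli m).eval ((c : ℚ) / F) : ℚ) : E)) := by ring
    rw [h2, h1]
    push_cast
    ring
  rw [Finset.sum_congr rfl e3, Finset.sum_add_distrib, ← Finset.mul_sum, hsum0, mul_zero, add_zero]
  refine sum_le _ _ zero_le_one fun c _ => ?_
  rw [norm_mul]
  refine mul_le_one₀ (h.le c) (norm_nonneg _) (sum_le _ _ zero_le_one fun l hl => ?_)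
  have hl' := mem_range.1 hl
  rw [norm_mul]
  have h6 : ‖(F : E) ^ l * (c : E) ^ (m - l) * ((m.choose l : ℕ) : E)‖ ≤ 1 := by
    have : (F : E) ^ l * (c : E) ^ (m - l) * ((m.choose l : ℕ) : E) = ((F ^ l * c ^ (m - l) * m.choose l : ℕ) : E) := by
      push_cast; ring
    rw [this]
    exact nat_le _
  exact mul_le_one₀ h6 (norm_nonneg _) (bern_le p l (by omega))

lemma alpha {F : ℕ} {f : ℕ → E} (h : Data p F f) (m : ℕ) :
    ‖∑ n ∈ range (F * p), f n * (n : E) ^ m - p * (m * ∑ a ∈ range p, (a : E) ^ (m - 1) * cc p F f 1 a)‖ ≤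
      ((p : ℝ) ^ 2)⁻¹ := by
  have h0 : (0 : ℝ) ≤ ((p : ℝ) ^ 2)⁻¹ := by positivity
  have e1 : ∑ n ∈ range (F * p), f n * (n : E) ^ m = ∑ a ∈ range p, ∑ j ∈ range F,
      f (a + p ^ 1 * j) * ((a + p * j : ℕ) : E) ^ m := by
    rw [mul_comm, sum_mul_range, Finset.sum_comm, pow_one]
  have e2 : (p : E) * (m * ∑ a ∈ range p, (a : E) ^ (m - 1) * cc p F f 1 a) = ∑ a ∈ range p, ∑ j ∈ range F,
      f (a + p ^ 1 * j) * ((a : E) ^ m + m * (a : E) ^ (m - 1) * (p * j)) := by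
    rw [Finset.mul_sum, Finset.mul_sum]
    refine Finset.sum_congr rfl fun a _ => ?_
    have h1 : ∀ j ∈ range F, f (a + p ^ 1 * j) * ((a : E) ^ m + m * (a : E) ^ (m - 1) * (p * j)) =
        (a : E) ^ m * f (a + p ^ 1 * j) + (m * (a : E) ^ (m - 1) * p) * (j * f (a + p ^ 1 * j)) := by
      intro j _
      ring
    rw [Finset.sum_congr rfl h1, Finset.sum_add_distrib, ← Finset.mul_sum, ← Finset.mul_sum, h.sum, mul_zero,
      zero_add]
    unfold cc
    ring
  rw [e1, e2, ← Finset.sum_sub_distrib]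
  refine sum_le _ _ h0 fun a _ => ?_
  rw [← Finset.sum_sub_distrib]
  refine sum_le _ _ h0 fun j _ => ?_
  rw [← mul_sub, norm_mul]
  have h1 : ((a + p * j : ℕ) : E) ^ m - ((a : E) ^ m + m * (a : E) ^ (m - 1) * (p * j)) =
      ((((a : ℤ) + p * j) ^ m - (a : ℤ) ^ m - m * (a : ℤ) ^ (m - 1) * (p * j) : ℤ) : E) := by
    push_cast
    ring
  have h2 : ‖((a + p * j : ℕ) : E) ^ m - ((a : E) ^ m + m * (a : E) ^ (m - 1) * (p * j))‖ ≤ ((p : ℝ) ^ 2)⁻¹ := by
    rw [h1]
    refine norm_int_dvd p ?_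
    refine dvd_trans ?_ (sq_dvd_pow (a : ℤ) (p * j) m)
    exact ⟨(j : ℤ) ^ 2, by ring⟩
  calc _ ≤ 1 * ((p : ℝ) ^ 2)⁻¹ := mul_le_mul (h.le _) h2 (norm_nonneg _) zero_le_one
    _ = _ := one_mul _

lemma div_p {x : E} (h : ‖(p : E) * x‖ ≤ ((p : ℝ) ^ 2)⁻¹) : ‖x‖ ≤ (p : ℝ)⁻¹ := by
  have hp0 : (0 : ℝ) < p := by exact_mod_cast hp.out.pos
  rw [norm_mul, norm_p (p := p), sq, mul_inv] at h
  exact le_of_mul_le_mul_left h (inv_pos.2 hp0)

lemma alpha_beta {F : ℕ} {f : ℕ → E} (h : Data p F f) {m : ℕ} (hmp : m + 1 ≤ p) :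
    ‖(m : E) * ∑ a ∈ range p, (a : E) ^ (m - 1) * cc p F f 1 a - (F : E) ^ m * BB F m f‖ ≤ (p : ℝ)⁻¹ := by
  refine div_p ?_
  have h1 := sub_le (beta h hmp) (alpha h m)
  have h2 : (p : E) * ((m : E) * ∑ a ∈ range p, (a : E) ^ (m - 1) * cc p F f 1 a - (F : E) ^ m * BB F m f) =
      (∑ n ∈ range (F * p), f n * (n : E) ^ m - p * ((F : E) ^ m * BB F m f)) -
      (∑ n ∈ range (F * p), f n * (n : E) ^ m - p * (m * ∑ a ∈ range p, (a : E) ^ (m - 1) * cc p F f 1 a)) := by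
    ring
  rw [h2]
  exact h1

lemma gi_mod {a r m : ℕ} (hm : 1 ≤ m) (hr : 1 ≤ r) (hrm : p - 1 ∣ r - 1 + m) :
    ‖(gi p r a : E) - (if p ∣ a then 0 else (a : E) ^ (m - 1))‖ ≤ (p : ℝ)⁻¹ := by
  unfold gi
  split_ifs with h
  · rw [sub_zero, norm_zero]
    positivity
  · have n1 : ‖((a : E)) ^ r‖ = 1 := by rw [norm_pow, norm_nat_unit p h, one_pow]
    have z1 : ((a : E)) ^ r ≠ 0 := fun h1 => by rw [h1, norm_zero] at n1; exact zero_ne_one n1
    have h1 : ((a : E) ^ r)⁻¹ - (a : E) ^ (m - 1) = ((1 - (a : ℤ) ^ (r - 1 + m) : ℤ) : E) / (a : E) ^ r := by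
      rw [eq_div_iff z1, sub_mul, inv_mul_cancel₀ z1, ← pow_add]
      push_cast
      congr 2
      omega
    rw [h1, norm_div, n1, div_one]
    have h2 := norm_int_dvd (E := E) p (N := 1) (z := 1 - (a : ℤ) ^ (r - 1 + m)) ?_
    · rwa [pow_one] at h2
    · rw [pow_one]
      rw [← ZMod.intCast_zmod_eq_zero_iff_dvd]
      push_cast
      obtain ⟨t, ht⟩ := hrm
      have h3 : (a : ZMod p) ≠ 0 := fun h4 => h ((ZMod.natCast_eq_zero_iff a p).1 h4)
      rw [ht, pow_mul, ZMod.pow_card_sub_one_eq_one h3, one_pow, sub_self]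

/-- **The first Riemann sum modulo `p`.** -/
lemma first {F : ℕ} {f : ℕ → E} (h : Data p F f) {m r : ℕ} (hm : 1 ≤ m) (hmp : m + 1 ≤ p) (hr : 1 ≤ r)
    (hrm : p - 1 ∣ r - 1 + m) (w : E) (hw : ‖w‖ ≤ 1) (hmul : ∀ j, f (p * j) = w * f j) :
    ‖(m : E) * SS p F f r 1 - F * ((1 - w * p ^ (m - 1)) * ((F : E) ^ (m - 1) * BB F m f))‖ ≤ (p : ℝ)⁻¹ := by
  have hinv : (0 : ℝ) ≤ (p : ℝ)⁻¹ := by positivity
  have e1 : ‖SS p F f r 1 - ∑ a ∈ range p, (if p ∣ a then 0 else (a : E) ^ (m - 1)) * cc p F f 1 a‖ ≤ (p : ℝ)⁻¹ := by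
    unfold SS
    rw [pow_one, ← Finset.sum_sub_distrib]
    refine sum_le _ _ hinv fun a _ => ?_
    rw [← sub_mul, norm_mul]
    calc _ ≤ (p : ℝ)⁻¹ * 1 := mul_le_mul (gi_mod hm hr hrm) (cc_le h _ _) (norm_nonneg _) hinv
      _ = _ := mul_one _
  have e2 : ∑ a ∈ range p, (a : E) ^ (m - 1) * cc p F f 1 a =
      ∑ a ∈ range p, (if p ∣ a then 0 else (a : E) ^ (m - 1)) * cc p F f 1 a +
        (if m = 1 then cc p F f 1 0 else 0) := by
    have hpos := hp.out.pos
    have h1 : ∑ a ∈ range p, (a : E) ^ (m - 1) * cc p F f 1 a -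
        ∑ a ∈ range p, (if p ∣ a then 0 else (a : E) ^ (m - 1)) * cc p F f 1 a =
        ∑ a ∈ range p, (if a = 0 then (a : E) ^ (m - 1) * cc p F f 1 a else 0) := by
      rw [← Finset.sum_sub_distrib]
      refine Finset.sum_congr rfl fun a ha => ?_
      have ha' := mem_range.1 ha
      by_cases h0 : a = 0
      · subst h0
        simp
      · have : ¬ p ∣ a := Nat.not_dvd_of_pos_of_lt (by omega) ha'
        rw [if_neg this, if_neg h0, sub_self]
    rw [Finset.sum_ite_eq' (range p) 0 (fun a => (a : E) ^ (m - 1) * cc p F f 1 a), if_pos (mem_range.2 hpos)] at h1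
    have h2 : ((0 : ℕ) : E) ^ (m - 1) * cc p F f 1 0 = if m = 1 then cc p F f 1 0 else 0 := by
      split_ifs with h3
      · subst h3
        simp
      · rw [Nat.cast_zero, zero_pow (by omega), zero_mul]
    rw [h2] at h1
    linear_combination h1
  have e3 := alpha_beta h hmp
  rw [e2] at e3
  have e4 : ‖(m : E) * (SS p F f r 1 - ∑ a ∈ range p, (if p ∣ a then 0 else (a : E) ^ (m - 1)) * cc p F f 1 a)‖ ≤ (p : ℝ)⁻¹ := by
    rw [norm_mul]
    calc _ ≤ 1 * (p : ℝ)⁻¹ := mul_le_mul (nat_le _) e1 (norm_nonneg _) zero_le_one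
      _ = _ := one_mul _
  have hFm : (F : E) ^ m = F * F ^ (m - 1) := by
    rw [← pow_succ']
    congr 1
    omega
  by_cases hm1 : m = 1
  · subst hm1
    rw [if_pos rfl] at e3
    have h1 : cc p F f 1 0 = w * ((F : E) * BB F 1 f) := by
      have hsum0 : ∑ c ∈ range F, f c = 0 := by
        have := h.sum 0 0
        simpa using this
      have hF' : (F : E) ≠ 0 := Nat.cast_ne_zero.2 h.pos.ne'
      unfold cc BB
      rw [Finset.mul_sum, Finset.mul_sum]
      have h2 : ∀ j ∈ range F, (j : E) * f (0 + p ^ 1 * j) = w * (j * f j) := by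
        intro j _
        rw [zero_add, pow_one, hmul]
        ring
      have h3 : ∀ c ∈ range F, w * ((F : E) * (f c * (((Polynomial.bernoulli 1).eval ((c : ℚ) / F) : ℚ) : E))) =
          w * (c * f c) + (-(w * F / 2)) * f c := by
        intro c _
        rw [Polynomial.bernoulli_one]
        simp only [Polynomial.eval_sub, Polynomial.eval_X, Polynomial.eval_C]
        push_cast
        field_simp
        ring
      rw [Finset.sum_congr rfl h2, Finset.sum_congr rfl h3, Finset.sum_add_distrib, ← Finset.mul_sum, ← Finset.mul_sum,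
        hsum0, mul_zero, add_zero]
    rw [h1] at e3
    simp only [Nat.sub_self, pow_zero, Nat.cast_one, one_mul, mul_one, pow_one] at e3 e4 ⊢
    have h2 : SS p F f r 1 - (F : E) * ((1 - w) * BB F 1 f) =
        (SS p F f r 1 - ∑ a ∈ range p, (if p ∣ a then 0 else 1) * cc p F f 1 a) +
        (∑ a ∈ range p, (if p ∣ a then 0 else 1) * cc p F f 1 a + w * (F * BB F 1 f) - F * BB F 1 f) := by
      ring
    rw [h2]
    exact add_le e4 e3
  · rw [if_neg hm1, add_zero] at e3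
    have h3 : ‖w * (p : E) ^ (m - 1) * ((F : E) ^ m * BB F m f)‖ ≤ (p : ℝ)⁻¹ := by
      rw [norm_mul, norm_mul, norm_pow, norm_p (p := p)]
      have hp1 : (1 : ℝ) < p := by exact_mod_cast hp.out.one_lt
      have h8 : ((p : ℝ)⁻¹) ^ (m - 1) ≤ (p : ℝ)⁻¹ := by
        calc ((p : ℝ)⁻¹) ^ (m - 1) ≤ ((p : ℝ)⁻¹) ^ 1 :=
              pow_le_pow_of_le_one (by positivity) (inv_le_one_of_one_le₀ hp1.le) (by omega)
          _ = _ := pow_one _
      have h9 := BB_le h hmp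
      have h10 : ‖w‖ * ((p : ℝ)⁻¹) ^ (m - 1) ≤ 1 * (p : ℝ)⁻¹ := mul_le_mul hw h8 (by positivity) zero_le_one
      calc _ ≤ (1 * (p : ℝ)⁻¹) * 1 := mul_le_mul h10 h9 (norm_nonneg _) (by positivity)
        _ = _ := by ring
    have h2 : (m : E) * SS p F f r 1 - F * ((1 - w * p ^ (m - 1)) * ((F : E) ^ (m - 1) * BB F m f)) =
        ((m : E) * (SS p F f r 1 - ∑ a ∈ range p, (if p ∣ a then 0 else (a : E) ^ (m - 1)) * cc p F f 1 a) +
        (m * ∑ a ∈ range p, (if p ∣ a then 0 else (a : E) ^ (m - 1)) * cc p F f 1 a - (F : E) ^ m * BB F m f)) +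
        w * (p : E) ^ (m - 1) * ((F : E) ^ m * BB F m f) := by
      rw [hFm]
      ring
    rw [h2]
    exact add_le (add_le e4 e3) h3

end Pool.Agent.Q22.PL
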